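import Pool.Agent.H756.OD.Low

/-! The share of the bad windows. -/

open Set MeasureTheory Topology Filter
open scoped ENNReal

namespace Pool.Agent.H756.OD

open Pool.Agent.H811R2.Quad

noncomputable section

lemma ind_measurable {G : ℝ → ℝ} (hG : Continuous G) : Measurable (ind G) :=
  measurable_const.indicator (measurableSet_le hG.measurable measurable_const)

lemma ind_periodic {G : ℝ → ℝ} {p : ℝ} (h : ∀ θ, G (θ + p) = G θ) (θ : ℝ) :
    ind G (θ + p) = ind G θ := by
  rcases le_or_gt (G θ) 0 with h1 | h1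
  · rw [ind_of_nonpos h1, ind_of_nonpos (by rw [h]; exact h1)]
  · rw [ind_of_pos h1, ind_of_pos (by rw [h]; exact h1)]

/-- the complement of the indicator integrates to the measure of the set where `G > 0` -/
lemma int_compl {G : ℝ → ℝ} (hG : Continuous G) :
    ∫ θ in (0:ℝ)..(2 * Real.pi), (1 - ind G θ) ≤
      (volume {θ ∈ Icc 0 (2 * Real.pi) | 0 < G θ}).toReal := by
  have hms : MeasurableSet {θ | 0 < G θ} := measurableSet_lt measurable_const hG.measurable
  have h1 : ∀ θ, 1 - ind G θ = {θ | 0 < G θ}.indicator (fun _ => (1:ℝ)) θ := by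
    intro θ
    rcases le_or_gt (G θ) 0 with h | h
    · rw [ind_of_nonpos h, indicator_of_notMem]
      · ring
      · simp only [mem_ofPred_eq, not_lt]; exact h
    · rw [ind_of_pos h, indicator_of_mem]
      · ring
      · exact h
  simp_rw [h1]
  rw [intervalIntegral.integral_of_le (by positivity), setIntegral_indicator hms,
    setIntegral_const, smul_eq_mul, mul_one]
  refine ENNReal.toReal_mono ?_ (measure_mono ?_)
  · apply ne_top_of_le_ne_top _ (measure_mono (s := {θ ∈ Icc 0 (2 * Real.pi) | 0 < G θ})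
      (t := Icc 0 (2 * Real.pi)) (fun θ hθ => hθ.1))
    rw [Real.volume_Icc]
    exact ENNReal.ofReal_ne_top
  · rintro θ ⟨hθ1, hθ2⟩
    exact ⟨⟨hθ1.1.le, hθ1.2⟩, hθ2⟩

/-- the share of the bad windows -/
theorem mean_bad {G : ℝ → ℝ} (hG : Continuous G) (hper : ∀ θ, G (θ + 2 * Real.pi) = G θ)
    {η : ℝ} (hη : 0 < η) :
    (volume (Icc 0 Real.pi ∩ (good G η)ᶜ)).toReal ≤
      2 * (volume {θ ∈ Icc 0 (2 * Real.pi) | 0 < G θ}).toReal := by
  set w : ℝ → ℝ := fun θ => 1 - ind G θ with hw
  have hwm : Measurable w := measurable_const.sub (ind_measurable hG)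
  have hw0 : ∀ θ, 0 ≤ w θ := fun θ => sub_nonneg.2 (ind_le_one G θ)
  have hw1 : ∀ θ, w θ ≤ 1 := fun θ => by
    have := ind_nonneg G θ
    simp only [hw]; linarith
  have hwi : ∀ a b, IntervalIntegrable w volume a b := fun a b =>
    (intervalIntegrable_const (c := (1:ℝ))).sub (ind_integrable hG a b)
  have hwper : Function.Periodic w (2 * Real.pi) := fun θ => by
    simp only [hw, ind_periodic hper]
  set D := ∫ θ in (0:ℝ)..(2 * Real.pi), w θ with hD
  set Bd := Icc 0 Real.pi ∩ (good G η)ᶜ with hBd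
  have hBm : MeasurableSet Bd := measurableSet_Icc.inter (good_meas hG η).compl
  set Φ : ℝ → ℝ := fun x => ∫ θ in (x - η)..(x + η), w θ with hΦ
  have hΦ1 : ∀ x, Φ x = ∫ t in (-η)..η, w (x + t) := by
    intro x
    simp only [hΦ]
    rw [intervalIntegral.integral_comp_add_left (fun x => w x) x, ← sub_eq_add_neg]
  have hΦc : Continuous Φ := by
    have hc : Continuous fun t => ∫ θ in (0:ℝ)..t, w θ :=
      intervalIntegral.continuous_primitive (fun a b => hwi a b) 0
    have h1 : Φ = fun x => (∫ θ in (0:ℝ)..(x + η), w θ) - ∫ θ in (0:ℝ)..(x - η), w θ := by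
      funext x
      simp only [hΦ]
      rw [intervalIntegral.integral_interval_sub_left (hwi _ _) (hwi _ _)]
    rw [h1]
    exact (hc.comp (continuous_id.add continuous_const)).sub
      (hc.comp (continuous_id.sub continuous_const))
  have hΦ0 : ∀ x, 0 ≤ Φ x := fun x =>
    intervalIntegral.integral_nonneg (by linarith) fun θ _ => hw0 θ
  have hΦB : ∀ x ∈ Bd, η ≤ Φ x := by
    rintro x ⟨-, hx⟩
    have h1 : ∫ θ in (x - η)..(x + η), ind G θ < η := not_le.1 hx
    simp only [hΦ, hw]
    rw [intervalIntegral.integral_sub (by simp) (ind_integrable hG _ _)]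
    simp only [intervalIntegral.integral_const, smul_eq_mul, mul_one]
    linarith
  have hBfin : volume Bd < ⊤ := lt_of_le_of_lt (measure_mono inter_subset_left) (by
    rw [Real.volume_Icc]; exact ENNReal.ofReal_lt_top)
  have hΦi : IntegrableOn Φ (Icc 0 Real.pi) := hΦc.integrableOn_Icc
  have h1 : η * (volume Bd).toReal ≤ ∫ θ in Bd, Φ θ := by
    have : ∫ θ in Bd, η = η * (volume Bd).toReal := by
      rw [setIntegral_const, smul_eq_mul, mul_comm]
      rfl
    rw [← this]
    exact setIntegral_mono_on (integrableOn_const (by exact hBfin.ne))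
      (hΦi.mono_set inter_subset_left) hBm hΦB
  have h2 : ∫ θ in Bd, Φ θ ≤ ∫ θ in Icc 0 Real.pi, Φ θ :=
    setIntegral_mono_set hΦi (Filter.Eventually.of_forall fun θ => hΦ0 θ)
      (HasSubset.Subset.eventuallyLE inter_subset_left)
  have h3 : ∫ θ in Icc 0 Real.pi, Φ θ
      = ∫ θ in (0:ℝ)..Real.pi, ∫ t in (-η)..η, w (θ + t) := by
    rw [intervalIntegral.integral_of_le Real.pi_pos.le, integral_Icc_eq_integral_Ioc]
    simp_rw [hΦ1]
  have h4 : ∫ θ in (0:ℝ)..Real.pi, ∫ t in (-η)..η, w (θ + t)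
      = ∫ t in (-η)..η, ∫ θ in (0:ℝ)..Real.pi, w (θ + t) := by
    apply MeasureTheory.intervalIntegral_intervalIntegral_swap
    have hK : (volume : Measure (ℝ × ℝ)) (Icc (0:ℝ) Real.pi ×ˢ Icc (-η) η) ≠ ⊤ :=
      ((isCompact_Icc.prod isCompact_Icc).measure_lt_top).ne
    have hint : IntegrableOn (Function.uncurry fun θ t : ℝ => w (θ + t))
        (Icc (0:ℝ) Real.pi ×ˢ Icc (-η) η) := by
      refine Measure.integrableOn_of_bounded (M := 1) hK ?_ ?_
      · exact (hwm.comp (measurable_fst.add measurable_snd)).aestronglyMeasurable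
      · refine Eventually.of_forall fun x => ?_
        show ‖w (x.1 + x.2)‖ ≤ 1
        rw [Real.norm_eq_abs, abs_of_nonneg (hw0 _)]
        exact hw1 _
    refine hint.mono_set ?_
    refine Set.prod_mono ?_ ?_
    · rw [uIoc_of_le Real.pi_pos.le]; exact Ioc_subset_Icc_self
    · rw [uIoc_of_le (by linarith)]; exact Ioc_subset_Icc_self
  have h5 : ∀ t : ℝ, ∫ θ in (0:ℝ)..Real.pi, w (θ + t) ≤ D := by
    intro t
    rw [intervalIntegral.integral_comp_add_right (fun x => w x) t, zero_add]
    have h6 : ∫ x in t..(Real.pi + t), w x ≤ ∫ x in t..(t + 2 * Real.pi), w x :=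
      intervalIntegral.integral_mono_interval le_rfl (by linarith [Real.pi_pos])
        (by linarith [Real.pi_pos]) (Eventually.of_forall hw0) (hwi _ _)
    have h7 := hwper.intervalIntegral_add_eq t 0
    rw [zero_add] at h7
    rw [h7] at h6
    exact h6
  have h8 : ∫ t in (-η)..η, ∫ θ in (0:ℝ)..Real.pi, w (θ + t) ≤ 2 * η * D := by
    have hc : Continuous fun t => ∫ θ in (0:ℝ)..Real.pi, w (θ + t) := by
      have h9 : (fun t => ∫ θ in (0:ℝ)..Real.pi, w (θ + t)) =
          fun t => (∫ θ in (0:ℝ)..(Real.pi + t), w θ) - ∫ θ in (0:ℝ)..t, w θ := by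
        funext t
        rw [intervalIntegral.integral_comp_add_right (fun x => w x) t, zero_add,
          intervalIntegral.integral_interval_sub_left (hwi _ _) (hwi _ _)]
      have hc0 : Continuous fun t => ∫ θ in (0:ℝ)..t, w θ :=
        intervalIntegral.continuous_primitive (fun a b => hwi a b) 0
      rw [h9]
      exact (hc0.comp (continuous_const.add continuous_id)).sub hc0
    have h9 : ∫ t in (-η)..η, ∫ θ in (0:ℝ)..Real.pi, w (θ + t) ≤ ∫ t in (-η)..η, D :=
      intervalIntegral.integral_mono_on (by linarith)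
        (hc.intervalIntegrable _ _) (by simp) (fun t _ => h5 t)
    rw [intervalIntegral.integral_const, smul_eq_mul] at h9
    refine h9.trans (le_of_eq ?_)
    ring
  have h10 : η * (volume Bd).toReal ≤ 2 * η * D := by
    refine h1.trans (h2.trans ?_)
    rw [h3, h4]
    exact h8
  have h11 : (volume Bd).toReal ≤ 2 * D := by
    have : η * (volume Bd).toReal ≤ η * (2 * D) := by linarith
    exact le_of_mul_le_mul_left this hη
  have h12 := int_compl hG
  linarith

/-- the choice of the sign -/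
theorem choose_sign {G : ℝ → ℝ} (hG : Continuous G) {E : Set ℝ}
    (hEsub : E ⊆ Icc 0 Real.pi) (hEvol : ENNReal.ofReal 1 ≤ volume E) {η : ℝ} (hη : 0 < η) :
    1 / 2 ≤ (volume (E ∩ good G η)).toReal ∨
      1 / 2 ≤ (volume (E ∩ good (fun θ => -G θ) η)).toReal := by
  have hcov : E ⊆ (E ∩ good G η) ∪ (E ∩ good (fun θ => -G θ) η) := by
    intro x hx
    rcases good_or hG hη x with h | h
    · exact Or.inl ⟨hx, h⟩
    · exact Or.inr ⟨hx, h⟩
  have hfin : volume E ≠ ⊤ := by
    apply ne_top_of_le_ne_top _ (measure_mono hEsub)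
    rw [Real.volume_Icc]
    exact ENNReal.ofReal_ne_top
  have h1 := (hEvol.trans (measure_mono hcov)).trans (measure_union_le _ _)
  have hf1 : volume (E ∩ good G η) ≠ ⊤ :=
    ne_top_of_le_ne_top hfin (measure_mono inter_subset_left)
  have hf2 : volume (E ∩ good (fun θ => -G θ) η) ≠ ⊤ :=
    ne_top_of_le_ne_top hfin (measure_mono inter_subset_left)
  have h2 := ENNReal.toReal_mono (ENNReal.add_ne_top.2 ⟨hf1, hf2⟩) h1
  rw [ENNReal.toReal_ofReal zero_le_one, ENNReal.toReal_add hf1 hf2] at h2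
  by_contra hcon
  push Not at hcon
  linarith [hcon.1, hcon.2]

/-- no choice is needed when `G > 0` only on a small set -/
theorem half_good {G : ℝ → ℝ} (hG : Continuous G) (hper : ∀ θ, G (θ + 2 * Real.pi) = G θ)
    {E : Set ℝ} (hEsub : E ⊆ Icc 0 Real.pi) (hEvol : ENNReal.ofReal 1 ≤ volume E)
    {η : ℝ} (hη : 0 < η)
    (hsmall : volume {θ ∈ Icc 0 (2 * Real.pi) | 0 < G θ} ≤ ENNReal.ofReal (1 / 4)) :
    1 / 2 ≤ (volume (E ∩ good G η)).toReal := by
  have hcov : E ⊆ (E ∩ good G η) ∪ (Icc 0 Real.pi ∩ (good G η)ᶜ) := by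
    intro x hx
    by_cases h : x ∈ good G η
    · exact Or.inl ⟨hx, h⟩
    · exact Or.inr ⟨hEsub hx, h⟩
  have hIcc : volume (Icc 0 Real.pi) ≠ ⊤ := by
    rw [Real.volume_Icc]
    exact ENNReal.ofReal_ne_top
  have hfin : volume E ≠ ⊤ := ne_top_of_le_ne_top hIcc (measure_mono hEsub)
  have h1 := (hEvol.trans (measure_mono hcov)).trans (measure_union_le _ _)
  have hf1 : volume (E ∩ good G η) ≠ ⊤ :=
    ne_top_of_le_ne_top hfin (measure_mono inter_subset_left)
  have hf2 : volume (Icc 0 Real.pi ∩ (good G η)ᶜ) ≠ ⊤ :=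
    ne_top_of_le_ne_top hIcc (measure_mono inter_subset_left)
  have h2 := ENNReal.toReal_mono (ENNReal.add_ne_top.2 ⟨hf1, hf2⟩) h1
  rw [ENNReal.toReal_ofReal zero_le_one, ENNReal.toReal_add hf1 hf2] at h2
  have h3 := mean_bad hG hper hη
  have h4 := ENNReal.toReal_mono ENNReal.ofReal_ne_top hsmall
  rw [ENNReal.toReal_ofReal (by norm_num)] at h4
  linarith

end

end Pool.Agent.H756.OD
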