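import Pool.Agent.H811R2.QPlane

/-! Closed orbits which wind counterclockwise around the origin and periodic graphs, without any
symmetry of the nonlinearity. -/

open Set Topology Filter
open scoped ENNReal NNReal

namespace Pool.Agent.H756.OD

open Pool.Agent.H811R2.Quad

noncomputable section

/-- the closed orbits of `z' = V z` which wind counterclockwise around the origin -/
def ccw (V : ℂ → ℂ) : Set (Set ℂ) :=
  {C | ∃ (γ : ℝ → ℂ) (T : ℝ), 0 < T ∧ (∀ t, HasDerivAt γ (V (γ t)) t) ∧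
    (∀ t, γ (t + T) = γ t) ∧ C = Set.range γ ∧
    ∃ ρ ϑ : ℝ → ℝ, Differentiable ℝ ρ ∧ Differentiable ℝ ϑ ∧
      (∀ t, γ t = Complex.exp (ρ t + ϑ t * Complex.I)) ∧ ϑ 0 < ϑ T}

variable {V : ℂ → ℂ} {m : ℕ} {G1 G2 : ℝ → ℝ} {μ : ℝ}

/-- a closed orbit with a polar lift is a lifted orbit -/
lemma lft_of_lift (hm : 0 < m)
    (hV : ∀ r θ : ℝ, 0 < r → V (r * Complex.exp (θ * Complex.I)) =
      ((μ + r ^ m * G1 θ : ℝ) + (1 + r ^ m * G2 θ : ℝ) * Complex.I) *
        (r * Complex.exp (θ * Complex.I)))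
    {γ : ℝ → ℂ} (hγ : ∀ t, HasDerivAt γ (V (γ t)) t) {ρ ϑ : ℝ → ℝ}
    (hρ : Differentiable ℝ ρ) (hϑ : Differentiable ℝ ϑ)
    (hpol : ∀ t, γ t = Complex.exp (ρ t + ϑ t * Complex.I)) :
    Lft (fun θ => m * G1 θ) G2 (m * μ) ϑ (fun t => m * ρ t) ∧
      (∀ t, HasDerivAt ϑ (V (γ t) / γ t).im t) := by
  have hγ0 : ∀ t, γ t ≠ 0 := fun t => by rw [hpol]; exact Complex.exp_ne_zero _
  have hpol' : ∀ t, γ t = (Real.exp (ρ t) : ℝ) * Complex.exp (ϑ t * Complex.I) := by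
    intro t
    rw [hpol t, Complex.exp_add, Complex.ofReal_exp]
  have hWt : ∀ t, V (γ t) / γ t = ((μ + Real.exp (ρ t) ^ m * G1 (ϑ t) : ℝ) : ℂ) +
      ((1 + Real.exp (ρ t) ^ m * G2 (ϑ t) : ℝ) : ℂ) * Complex.I := by
    intro t
    rw [div_eq_iff (hγ0 t), hpol' t]
    exact hV _ _ (Real.exp_pos _)
  have hd : ∀ t, V (γ t) / γ t = ((deriv ρ t : ℝ) : ℂ) + ((deriv ϑ t : ℝ) : ℂ) * Complex.I := by
    intro t
    have h1 : HasDerivAt (fun t => (ρ t : ℂ) + ϑ t * Complex.I)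
        (((deriv ρ t : ℝ) : ℂ) + ((deriv ϑ t : ℝ) : ℂ) * Complex.I) t :=
      ((hρ t).hasDerivAt.ofReal_comp).add (((hϑ t).hasDerivAt.ofReal_comp).mul_const _)
    have h2 := h1.cexp
    have h3 : HasDerivAt γ (Complex.exp (ρ t + ϑ t * Complex.I) *
        (((deriv ρ t : ℝ) : ℂ) + ((deriv ϑ t : ℝ) : ℂ) * Complex.I)) t := by
      refine h2.congr_of_eventuallyEq ?_
      exact Eventually.of_forall hpol
    have h4 := (hγ t).unique h3
    rw [h4, ← hpol t, mul_div_cancel_left₀ _ (hγ0 t)]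
  have hexpm : ∀ t, Real.exp (ρ t) ^ m = Real.exp (m * ρ t) := fun t => (Real.exp_nat_mul _ _).symm
  have hdre : ∀ t, deriv ρ t = μ + Real.exp (m * ρ t) * G1 (ϑ t) := by
    intro t
    have h1 := (hd t).symm.trans (hWt t)
    have h2 := congrArg Complex.re h1
    rw [hexpm] at h2
    simpa only [Complex.add_re, Complex.mul_re, Complex.ofReal_re, Complex.I_re, mul_zero,
      Complex.ofReal_im, Complex.I_im, mul_one, sub_self, add_zero] using h2
  have hdim : ∀ t, deriv ϑ t = 1 + Real.exp (m * ρ t) * G2 (ϑ t) := by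
    intro t
    have h1 := (hd t).symm.trans (hWt t)
    have h2 := congrArg Complex.im h1
    rw [hexpm] at h2
    simpa only [Complex.add_im, Complex.mul_im, Complex.ofReal_re, Complex.I_re, mul_zero,
      Complex.ofReal_im, Complex.I_im, mul_one, zero_add, add_zero] using h2
  refine ⟨⟨fun t => ?_, fun t => ?_⟩, fun t => ?_⟩
  · rw [← hdim t]; exact (hϑ t).hasDerivAt
  · refine ((hρ t).hasDerivAt.const_mul (m:ℝ)).congr_deriv ?_
    rw [hdre t]
    ring
  · rw [hd t]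
    simpa using (hϑ t).hasDerivAt

/-- the increment of the angle over a period -/
lemma lift_per {γ : ℝ → ℂ} {T : ℝ} {ρ ϑ : ℝ → ℝ}
    (hϑ : ∀ t, HasDerivAt ϑ (V (γ t) / γ t).im t)
    (hγT : ∀ t, γ (t + T) = γ t)
    (hpol : ∀ t, γ t = Complex.exp (ρ t + ϑ t * Complex.I)) :
    (∀ t, ρ (t + T) = ρ t) ∧ (∀ t, ϑ (t + T) = ϑ t + (ϑ T - ϑ 0)) ∧
      ∃ k : ℤ, ϑ T - ϑ 0 = k * (2 * Real.pi) := by
  have hnorm : ∀ t, ‖γ t‖ = Real.exp (ρ t) := by
    intro t
    rw [hpol t, Complex.norm_exp]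
    congr 1
    simp
  have hρT : ∀ t, ρ (t + T) = ρ t := by
    intro t
    have h1 := hnorm (t + T)
    rw [hγT, hnorm] at h1
    exact (Real.exp_injective h1).symm
  have hκ : ∀ t, ϑ (t + T) = ϑ t + (ϑ T - ϑ 0) := by
    have hd : ∀ t, HasDerivAt (fun t => ϑ (t + T) - ϑ t) 0 t := by
      intro t
      refine (((hϑ (t + T)).comp_add_const t T).sub (hϑ t)).congr_deriv ?_
      rw [hγT, sub_self]
    intro t
    have := is_const_of_deriv_eq_zero (f := fun t => ϑ (t + T) - ϑ t)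
      (fun t => (hd t).differentiableAt) (fun t => (hd t).deriv) t 0
    simp only [zero_add] at this
    linarith
  refine ⟨hρT, hκ, ?_⟩
  have e1 := hpol (0 + T)
  have e2 := hpol 0
  rw [hγT, hρT, e2] at e1
  rw [Complex.exp_eq_exp_iff_exists_int] at e1
  obtain ⟨k, hk⟩ := e1
  refine ⟨-k, ?_⟩
  have h2 := congrArg Complex.im hk
  simp at h2
  push_cast
  linarith

/-- counterclockwise closed orbits are periodic graphs -/
theorem ccw_sub (hm : 0 < m) (hG1 : ContDiff ℝ 1 G1) (hG2 : ContDiff ℝ 1 G2)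
    (hper1 : ∀ θ, G1 (θ + 2 * Real.pi) = G1 θ) (hper2 : ∀ θ, G2 (θ + 2 * Real.pi) = G2 θ)
    (hV : ∀ r θ : ℝ, 0 < r → V (r * Complex.exp (θ * Complex.I)) =
      ((μ + r ^ m * G1 θ : ℝ) + (1 + r ^ m * G2 θ : ℝ) * Complex.I) *
        (r * Complex.exp (θ * Complex.I)))
    {C : Set ℂ} (hC : C ∈ ccw V) :
    ∃ v, PSol (fun θ => m * G1 θ) G2 (m * μ) v ∧ C = curve m v := by
  obtain ⟨γ, T, hT0, hγ, hγT, rfl, ρ, ϑ, hρ, hϑ, hpol, hlt⟩ := hC
  have hmR : (0:ℝ) < m := by exact_mod_cast hm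
  obtain ⟨hL, hdϑ⟩ := lft_of_lift hm hV hγ hρ hϑ hpol
  obtain ⟨hρT, hκ, k, hk⟩ := lift_per hdϑ hγT hpol
  have hkpos : 0 < k := by
    by_contra hc
    push Not at hc
    have : (k:ℝ) ≤ 0 := by exact_mod_cast hc
    have := mul_nonpos_of_nonpos_of_nonneg this (by positivity : (0:ℝ) ≤ 2 * Real.pi)
    linarith
  obtain ⟨k', hk'⟩ := Int.eq_ofNat_of_zero_le hkpos.le
  have hk'0 : 0 < k' := by omega
  have hκ'' : ∀ t, ϑ (t + T) = ϑ t + (k' : ℝ) * (2 * Real.pi) := by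
    intro t
    rw [hκ, hk, hk']
    push_cast
    ring
  have hG1m : ContDiff ℝ 1 (fun θ => (m:ℝ) * G1 θ) := contDiff_const.mul hG1
  obtain ⟨v, hv, hvu, hsurj⟩ := hL.exists_PSol hG1m hG2 (fun θ => by simp only [hper1]) hper2
    hk'0 hT0 hκ'' (fun t => by simp only [hρT])
  refine ⟨v, hv, ?_⟩
  have hlog : ∀ t, -Real.log (v (ϑ t)) / m = ρ t := by
    intro t
    rw [hvu, Real.log_exp, neg_neg]
    field_simp
  ext z
  constructor
  · rintro ⟨t, rfl⟩
    refine ⟨ϑ t, ?_⟩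
    simp only
    rw [hlog, ← hpol t]
  · rintro ⟨θ, rfl⟩
    obtain ⟨t, rfl⟩ := hsurj θ
    refine ⟨t, ?_⟩
    simp only
    rw [hlog, ← hpol t]

/-- if the angular part is somewhere nonnegative, all closed orbits which surround the origin wind
counterclockwise -/
theorem around_sub_ccw (hVc : Continuous V) (hm : 0 < m)
    (hper2 : ∀ θ, G2 (θ + 2 * Real.pi) = G2 θ) (hw : ∃ w, 0 ≤ G2 w)
    (hV : ∀ r θ : ℝ, 0 < r → V (r * Complex.exp (θ * Complex.I)) =
      ((μ + r ^ m * G1 θ : ℝ) + (1 + r ^ m * G2 θ : ℝ) * Complex.I) *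
        (r * Complex.exp (θ * Complex.I))) :
    around V ⊆ ccw V := by
  intro C hC
  obtain ⟨⟨γ, T, hT0, hγ, hγT, rfl⟩, h0C, hbd⟩ := hC
  obtain ⟨w, hw⟩ := hw
  have hγ0 : ∀ t, γ t ≠ 0 := fun t h => h0C ⟨t, h⟩
  have hγc : Continuous γ := continuous_iff_continuousAt.2 fun t => (hγ t).continuousAt
  have hWc : Continuous fun t => V (γ t) / γ t := (hVc.comp hγc).div hγc hγ0
  obtain ⟨ϑ, ρ, dϑ, dρ, hpol⟩ := exists_lift hWc hγ0 (fun t => by
    rw [div_mul_cancel₀ _ (hγ0 t)]; exact hγ t)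
  have hρ : Differentiable ℝ ρ := fun t => (dρ t).differentiableAt
  have hϑ : Differentiable ℝ ϑ := fun t => (dϑ t).differentiableAt
  obtain ⟨hL, -⟩ := lft_of_lift hm hV hγ hρ hϑ hpol
  obtain ⟨hρT, hκ, k, hk⟩ := lift_per dϑ hγT hpol
  refine ⟨γ, T, hT0, hγ, hγT, rfl, ρ, ϑ, hρ, hϑ, hpol, ?_⟩
  have hpern : ∀ (n : ℕ) θ, G2 (θ - n * (2 * Real.pi)) = G2 θ := by
    intro n θ
    have hp : Function.Periodic G2 (2 * Real.pi) := hper2
    exact hp.sub_nat_mul_eq n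
  have hperz : ∀ (n : ℤ) θ, G2 (θ + n * (2 * Real.pi)) = G2 θ := by
    intro n θ
    have hp : Function.Periodic G2 (2 * Real.pi) := hper2
    exact (hp.int_mul n) θ
  have hκ0 : 0 ≤ ϑ T - ϑ 0 := hL.wind_nonneg hpern hw hT0 hκ
  rcases eq_or_lt_of_le hκ0 with hκz | hκpos
  · exfalso
    have hκ' : ∀ t, ϑ (t + T) = ϑ t := fun t => by rw [hκ, ← hκz, add_zero]
    have hnorm : ∀ t, ‖γ t‖ = Real.exp (ρ t) := by
      intro t
      rw [hpol t, Complex.norm_exp]
      congr 1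
      simp
    have hpol' : ∀ t, γ t = (Real.exp (ρ t) : ℝ) * Complex.exp (ϑ t * Complex.I) := by
      intro t
      rw [hpol t, Complex.exp_add, Complex.ofReal_exp]
    set ray : Set ℂ := (fun r : ℝ => (r : ℂ) * Complex.exp (w * Complex.I)) '' Ici 0 with hray
    have hsub : ray ⊆ (Set.range γ)ᶜ := by
      rintro z ⟨r, hr, rfl⟩ ⟨t, ht⟩
      have hr0 : (0:ℝ) ≤ r := hr
      have hr1 : 0 < r := by
        rcases eq_or_lt_of_le hr0 with h | h
        · exfalso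
          apply hγ0 t
          rw [ht, ← h]; simp
        · exact h
      have h1 := hnorm t
      have h2 : ‖γ t‖ = r := by
        rw [ht]
        simp only
        rw [norm_mul, Complex.norm_real, Complex.norm_exp_ofReal_mul_I, mul_one,
          Real.norm_of_nonneg hr0]
      have h3 := hpol' t
      rw [ht, ← h1, h2] at h3
      simp only at h3
      have h4 := mul_left_cancel₀ (by exact_mod_cast hr1.ne') h3
      rw [Complex.exp_eq_exp_iff_exists_int] at h4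
      obtain ⟨n, hn⟩ := h4
      have h5 := congrArg Complex.im hn
      simp at h5
      have h6 : 0 ≤ G2 (w + (-n : ℤ) * (2 * Real.pi)) := by rw [hperz]; exact hw
      apply hL.free_ray h6 hT0 hκ' t
      push_cast
      linarith
    have hconn : IsPreconnected ray := by
      apply IsPreconnected.image (convex_Ici 0).isPreconnected
      exact (Complex.continuous_ofReal.mul continuous_const).continuousOn
    have h0ray : (0:ℂ) ∈ ray := ⟨0, self_mem_Ici, by simp⟩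
    have hsub2 := hconn.subset_connectedComponentIn h0ray hsub
    have hbd2 := hbd.subset hsub2
    obtain ⟨R, hR⟩ := hbd2.exists_norm_le
    have h7 := hR ((|R| + 1 : ℝ) * Complex.exp (w * Complex.I))
      ⟨|R| + 1, by simp only [mem_Ici]; positivity, rfl⟩
    rw [norm_mul, Complex.norm_real, Complex.norm_exp_ofReal_mul_I, mul_one,
      Real.norm_of_nonneg (by positivity)] at h7
    have := le_abs_self R
    linarith
  · linarith

theorem ccw_encard_le (hm : 0 < m) (hG1 : ContDiff ℝ 1 G1) (hG2 : ContDiff ℝ 1 G2)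
    (hper1 : ∀ θ, G1 (θ + 2 * Real.pi) = G1 θ) (hper2 : ∀ θ, G2 (θ + 2 * Real.pi) = G2 θ)
    (hV : ∀ r θ : ℝ, 0 < r → V (r * Complex.exp (θ * Complex.I)) =
      ((μ + r ^ m * G1 θ : ℝ) + (1 + r ^ m * G2 θ : ℝ) * Complex.I) *
        (r * Complex.exp (θ * Complex.I))) :
    (ccw V).encard ≤ ({v | PSol (fun θ => m * G1 θ) G2 (m * μ) v} : Set (ℝ → ℝ)).encard := by
  have hsub : ccw V ⊆ (curve m) '' {v | PSol (fun θ => m * G1 θ) G2 (m * μ) v} := by
    intro C hC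
    obtain ⟨v, hv, hCv⟩ := ccw_sub hm hG1 hG2 hper1 hper2 hV hC
    exact ⟨v, hv, hCv.symm⟩
  exact (encard_le_encard hsub).trans (encard_image_le _ _)

end

end Pool.Agent.H756.OD
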