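import Pool.Agent.H756.OD.Bad
import Pool.Agent.H756.OD.Plane
import Pool.Agent.H811R2.T.A1
import Pool.Agent.H811R2.T.A2
import Pool.Agent.H811R2.T.A3
import Pool.Agent.H811R2.T.B
import Pool.Agent.H811R2.T.C
import Pool.Agent.H811R2.T.D
import Pool.Agent.H811R2.T.E
import Pool.Agent.H811R2.T.F
import Pool.Agent.H811R2.T.H

/-! The uniform averaged bound for all degrees, for one of the two signs of the nonlinearity. -/

open Set MeasureTheory Topology Filter
open scoped ENNReal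

namespace Pool.Agent.H756.OD

open Pool.Agent.H811R2.Quad

noncomputable section

lemma ellv_reflect {s v : ℝ → ℝ} (hs : ∀ θ, s (θ + 2 * Real.pi) = s θ)
    (hv : ∀ θ, v (θ + 2 * Real.pi) = v θ) :
    ellv (fun θ => s (-θ)) v = ellv s (fun θ => v (-θ)) := by
  unfold ellv
  have hp : Function.Periodic (fun θ => X (s (-θ)) (v θ) ^ 2) (2 * Real.pi) := by
    intro θ
    have h1 : s (-(θ + 2 * Real.pi)) = s (-θ) := by
      have := hs (-(θ + 2 * Real.pi))
      rw [← this]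
      congr 1
      ring
    simp only [h1, hv]
  have h1 := hp.intervalIntegral_add_eq (-(2 * Real.pi)) 0
  have h2 : ∫ θ in (0:ℝ)..(2 * Real.pi), X (s θ) ((fun θ => v (-θ)) θ) ^ 2 =
      ∫ θ in (0:ℝ)..(2 * Real.pi), (fun θ => X (s (-θ)) (v θ) ^ 2) (-θ) := by
    apply intervalIntegral.integral_congr
    intro θ _
    simp only [neg_neg]
  rw [h2, intervalIntegral.integral_comp_neg (fun θ => X (s (-θ)) (v θ) ^ 2)]
  rw [zero_add, neg_add_cancel] at h1
  rw [neg_zero, h1]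

/-- the field in polar coordinates -/
lemma VH_polar (m : ℕ) (c : ℕ → ℂ) (μ : ℝ) (r θ : ℝ) :
    VH (m + 1) c μ (r * Complex.exp (θ * Complex.I)) =
      ((μ + r ^ m * (Gn (m + 1) c θ).re : ℝ) +
        (1 + r ^ m * (Gn (m + 1) c θ).im : ℝ) * Complex.I) * (r * Complex.exp (θ * Complex.I)) := by
  unfold VH
  rw [Gn_polar (by omega) c r θ]
  have e1 : Gn (m + 1) c θ = ((Gn (m + 1) c θ).re : ℂ) + (Gn (m + 1) c θ).im * Complex.I :=
    (Complex.re_add_im _).symm
  rw [Nat.add_sub_cancel]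
  nth_rewrite 1 [e1]
  push_cast
  ring

lemma continuous_VH (n : ℕ) (c : ℕ → ℂ) (μ : ℝ) : Continuous (VH n c μ) := by
  unfold VH
  have h2 : Continuous fun z : ℂ => (starRingEnd ℂ) z := Complex.continuous_conj
  fun_prop

/-- no graphs for the linear field -/
lemma PSol_zero {m : ℝ} (hm : 0 < m) {μ : ℝ} (hμ : μ ≠ 0) {G1 G2 v : ℝ → ℝ}
    (h1 : ∀ θ, G1 θ = 0) (h : PSol (fun θ => m * G1 θ) G2 (m * μ) v) : False := by
  rcases lt_or_gt_of_ne hμ with h0 | h0
  · have hR := h.reflect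
    have hR' : PSol (fun θ => m * (fun θ => -G1 (-θ)) θ) (fun θ => G2 (-θ)) (m * (-μ))
        (fun θ => v (-θ)) := by
      have e1 : (fun θ => -(fun θ => m * G1 θ) (-θ)) = fun θ => m * (fun θ => -G1 (-θ)) θ := by
        funext θ; simp only; ring
      rw [e1, ← mul_neg] at hR
      exact hR
    have h3 := hR'.le_of_mu hm (by linarith : 0 < -μ) (K := 0) (fun θ => by
      simp only [h1, neg_zero, abs_zero, le_refl]) 0
    have h4 := hR'.pos 0
    rw [zero_div] at h3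
    linarith
  · have h3 := h.le_of_mu hm h0 (K := 0) (fun θ => by rw [h1]; simp) 0
    have h4 := h.pos 0
    rw [zero_div] at h3
    linarith

/-- the mean number of the counterclockwise closed orbits is at most `K` -/
def MB (K : ℝ) (n : ℕ) (c : ℕ → ℂ) : Prop :=
  ∀ M : ℝ, 1 ≤ M → ∃ g : ℝ → ℝ≥0∞, Measurable g ∧
    (∀ μ ∈ Icc (-M) M, (((ccw (VH n c μ)).encard : ℕ∞) : ℝ≥0∞) ≤ g μ) ∧
    ∫⁻ μ in Icc (-M) M, g μ ≤ ENNReal.ofReal (K * (2 * M))

/-- the reduction to graphs -/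
lemma ccw_le (m : ℕ) (hm1 : 1 ≤ m) (c : ℕ → ℂ) (μ : ℝ) : (ccw (VH (m + 1) c μ)).encard ≤
      ({v | PSol (fun θ => m * (Gn (m + 1) c θ).re) (fun θ => (Gn (m + 1) c θ).im)
        (m * μ) v} : Set (ℝ → ℝ)).encard := by
  apply ccw_encard_le (V := VH (m + 1) c μ) (G1 := fun θ => (Gn (m + 1) c θ).re)
    (G2 := fun θ => (Gn (m + 1) c θ).im) hm1
    (Complex.reCLM.contDiff.comp (contDiff_Gn (m + 1) c))
    (Complex.imCLM.contDiff.comp (contDiff_Gn (m + 1) c))
    (fun θ => by simp only [Gn_per]) (fun θ => by simp only [Gn_per])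
  intro r θ _
  rw [VH_polar]

theorem mb_zero {K : ℝ} (m : ℕ) (hm1 : 1 ≤ m) {c : ℕ → ℂ}
    (hne : ∀ w, Pc (m + 1) c w = 0) : MB K (m + 1) c := by
  intro M hM
  have hmR : (0:ℝ) < m := by exact_mod_cast hm1
  have hz : ∀ θ, Gn (m + 1) c θ = 0 := by
    intro θ
    unfold Gn
    rw [hne, mul_zero]
  refine ⟨({0} : Set ℝ).indicator (fun _ => ⊤),
    measurable_const.indicator (measurableSet_singleton 0), fun μ _ => ?_, ?_⟩
  · by_cases hμ : μ = 0
    · rw [hμ]; simp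
    · have h1 := ccw_le m hm1 c μ
      have hempty : ({v | PSol (fun θ => m * (Gn (m + 1) c θ).re)
          (fun θ => (Gn (m + 1) c θ).im) (m * μ) v} : Set (ℝ → ℝ)) = ∅ := by
        ext v
        simp only [Set.mem_ofPred_eq, mem_empty_iff_false, iff_false]
        intro h
        exact PSol_zero (G1 := fun θ => (Gn (m + 1) c θ).re) hmR hμ
          (fun θ => by simp only [hz]; simp) h
      rw [hempty, encard_empty] at h1
      have h2 : (ccw (VH (m + 1) c μ)).encard = 0 := le_antisymm h1 zero_le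
      rw [h2]
      simp
  · have e2 : ∫⁻ t in Icc (-M) M, ({0} : Set ℝ).indicator (fun _ => (⊤:ℝ≥0∞)) t = 0 := by
      refine le_antisymm ((setLIntegral_le_lintegral _ _).trans (le_of_eq ?_)) zero_le
      rw [lintegral_indicator (measurableSet_singleton 0)]
      simp
    rw [e2]
    exact zero_le

theorem mb_of_good (hF : StF) (hH : StH) (B : ℝ) (hB1 : 1 ≤ B) :
    ∃ K : ℝ, 0 ≤ K ∧ ∀ (m : ℕ) (c : ℕ → ℂ), 1 ≤ m →
      (∃ w, Pc (m + 1) c w ≠ 0) → ∀ E : Set ℝ, Typ B (m + 1) c E →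
      1 / 2 ≤ (volume (E ∩ good (fun θ => (Gn (m + 1) c θ).im) (wid B m))).toReal →
      MB K (m + 1) c := by
  obtain ⟨k, c₀, hk, hc₀, hlow⟩ := low hF hH B hB1
  obtain ⟨C, hC0, hC⟩ := tI k hk
  refine ⟨C / c₀, by positivity, ?_⟩
  intro m c hm1 hne E hET hEvol M hM
  have hmR : (0:ℝ) < m := by exact_mod_cast hm1
  obtain ⟨s, s', h1, h2, h3, h4, b1, b2, b3, h8, h9⟩ := hlow m c hm1 hne E hET hEvol
  have hcG1 : Continuous fun θ => (Gn (m + 1) c θ).re :=
    Complex.continuous_re.comp (contDiff_Gn (m + 1) c).continuous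
  have hdG2 : ∀ θ, HasDerivAt (fun θ => (Gn (m + 1) c θ).im)
      (Gn' (m + 1) c θ).im θ := fun θ => by
    have := (hasDerivAt_Gn (m + 1) c θ)
    exact (Complex.imCLM.hasFDerivAt.comp_hasDerivAt θ this)
  have hcG2' : Continuous fun θ => (Gn' (m + 1) c θ).im :=
    Complex.continuous_im.comp (continuous_Gn' (m + 1) c)
  have hperG2 : ∀ θ, (Gn (m + 1) c (θ + 2 * Real.pi)).im = (Gn (m + 1) c θ).im :=
    fun θ => by rw [Gn_per]
  have hperneg : ∀ {f : ℝ → ℝ}, (∀ θ, f (θ + 2 * Real.pi) = f θ) →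
      ∀ θ, f (-(θ + 2 * Real.pi)) = f (-θ) := by
    intro f hf θ
    have := hf (-(θ + 2 * Real.pi))
    rw [← this]
    congr 1
    ring
  obtain ⟨gp, hgp1, hgp2, hgp3⟩ := hC m (fun θ => (Gn (m + 1) c θ).re)
    (fun θ => (Gn (m + 1) c θ).im) (fun θ => (Gn' (m + 1) c θ).im) s s' hmR hcG1 hdG2
    hcG2' hperG2 h1 h2 h3 h4 b1 b2 b3 h8 c₀ hc₀ (fun μ v hμ hv => h9 μ v hμ.ne' hv) M hM
  obtain ⟨gm, hgm1, hgm2, hgm3⟩ := hC m (fun θ => -(Gn (m + 1) c (-θ)).re)
    (fun θ => (Gn (m + 1) c (-θ)).im) (fun θ => -(Gn' (m + 1) c (-θ)).im)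
    (fun θ => s (-θ)) (fun θ => -(s' (-θ))) hmR (hcG1.comp continuous_neg).neg
    (fun θ => by
      have := (hdG2 (-θ)).comp θ (hasDerivAt_neg θ)
      refine this.congr_deriv ?_
      ring)
    (hcG2'.comp continuous_neg).neg
    (fun θ => hperneg (f := fun θ => (Gn (m + 1) c θ).im) hperG2 θ)
    (fun θ => by
      have := (h1 (-θ)).comp θ (hasDerivAt_neg θ)
      refine this.congr_deriv ?_
      ring)
    (h2.comp continuous_neg).neg (fun θ => h3 _) (fun θ => hperneg h4 θ)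
    (fun θ => by rw [abs_neg]; exact b1 _) (fun θ => b2 _)
    (fun θ => by rw [abs_neg]; exact b3 _) (fun θ => by rw [abs_neg]; exact h8 _)
    c₀ hc₀ (fun μ v hμ hv => by
      have hR := hv.reflect
      have hR' : PSol (fun θ => m * (Gn (m + 1) c θ).re)
          (fun θ => (Gn (m + 1) c θ).im) (m * (-μ)) (fun θ => v (-θ)) := by
        have e1 : (fun θ => -(fun θ => (m:ℝ) * -(Gn (m + 1) c (-θ)).re) (-θ)) =
            fun θ => m * (Gn (m + 1) c θ).re := by
          funext θ; simp only [neg_neg]; ring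
        have e2 : (fun θ => (fun θ => (Gn (m + 1) c (-θ)).im) (-θ)) =
            fun θ => (Gn (m + 1) c θ).im := by
          funext θ; simp only [neg_neg]
        rw [e1, e2, ← mul_neg] at hR
        exact hR
      have h10 := h9 (-μ) _ (by linarith) hR'
      rw [neg_sq] at h10
      rw [ellv_reflect h4 hv.per]
      exact h10) M hM
  have hfin := glueM
    (N := fun μ => (((ccw (VH (m + 1) c μ)).encard : ℕ∞) : ℝ≥0∞))
    hgp1 hgm1 (M := M) (K := C / c₀ * M) (fun μ h0 h1 => ?_) (fun μ h0 h1 => ?_)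
    (hgp3.trans (le_of_eq (by congr 1; ring))) (hgm3.trans (le_of_eq (by congr 1; ring)))
    (by positivity)
  · obtain ⟨g, hg1, hg2, hg3⟩ := hfin
    refine ⟨g, hg1, hg2, hg3.trans (le_of_eq ?_)⟩
    congr 1
    ring
  · exact le_trans (by exact_mod_cast ccw_le m hm1 c μ) (hgp2 μ h0 h1)
  · refine le_trans ?_ (hgm2 μ h0 h1)
    have h1 := (ccw_le m hm1 c (-μ)).trans (reflect_encard _ _ _)
    have e1 : (fun θ => -(fun θ => m * (Gn (m + 1) c θ).re) (-θ)) =
        fun θ => m * -(Gn (m + 1) c (-θ)).re := by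
      funext θ
      ring
    rw [e1, show -((m:ℝ) * -μ) = m * μ by ring] at h1
    exact_mod_cast h1

lemma Pc_neg (n : ℕ) (c : ℕ → ℂ) (w : ℂ) : Pc n (fun j => -c j) w = -Pc n c w := by
  unfold Pc
  rw [← Finset.sum_neg_distrib]
  refine Finset.sum_congr rfl fun j _ => ?_
  ring

lemma Gn_neg (n : ℕ) (c : ℕ → ℂ) (θ : ℝ) : Gn n (fun j => -c j) θ = -Gn n c θ := by
  unfold Gn
  rw [Pc_neg, mul_neg]

lemma GC_neg (n : ℕ) (c : ℕ → ℂ) (z : ℂ) : GC n (fun j => -c j) z = -GC n c z := by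
  unfold GC
  rw [Pc_neg, mul_neg]

theorem main (hE : StE) (hF : StF) (hH : StH) :
    ∃ K : ℝ, 0 ≤ K ∧ ∀ (n : ℕ) (c : ℕ → ℂ), 2 ≤ n →
      (MB K n c ∨ MB K n (fun j => -c j)) ∧
      (volume {θ ∈ Icc 0 (2 * Real.pi) | 0 < (Gn n c θ).im} ≤ ENNReal.ofReal (1 / 4) →
        MB K n c) := by
  obtain ⟨B, hB1, hB⟩ := hE
  obtain ⟨K, hK0, hK⟩ := mb_of_good hF hH B hB1
  refine ⟨K, hK0, ?_⟩
  intro n c hn
  obtain ⟨m, rfl⟩ : ∃ m, n = m + 1 := ⟨n - 1, by omega⟩
  have hm1 : 1 ≤ m := by omega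
  by_cases hne : ∃ w, Pc (m + 1) c w ≠ 0
  · obtain ⟨E, hEm, hEsub, hEvol, hEty⟩ := hB (m + 1) c (by omega) hne
    have hT : Typ B (m + 1) c E := ⟨hEm, hEsub, hEty⟩
    have hG2c : Continuous fun θ => (Gn (m + 1) c θ).im :=
      Complex.continuous_im.comp (contDiff_Gn (m + 1) c).continuous
    constructor
    · rcases choose_sign hG2c hEsub hEvol (wid_pos hB1 m) with h | h
      · left
        exact hK m c hm1 hne E hT h
      · right
        have hne' : ∃ w, Pc (m + 1) (fun j => -c j) w ≠ 0 := by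
          obtain ⟨w, hw⟩ := hne
          exact ⟨w, by rw [Pc_neg]; exact neg_ne_zero.2 hw⟩
        have hT' : Typ B (m + 1) (fun j => -c j) E := by
          refine ⟨hEm, hEsub, fun θ hθ z => ?_⟩
          rw [GC_neg, GC_neg, norm_neg, norm_neg]
          exact hEty θ hθ z
        apply hK m (fun j => -c j) hm1 hne' E hT'
        have e : (fun θ => (Gn (m + 1) (fun j => -c j) θ).im) =
            fun θ => -(Gn (m + 1) c θ).im := by
          funext θ
          rw [Gn_neg, Complex.neg_im]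
        rw [e]
        exact h
    · intro hsmall
      exact hK m c hm1 hne E hT
        (half_good hG2c (fun θ => by rw [Gn_per]) hEsub hEvol (wid_pos hB1 m) hsmall)
  · push Not at hne
    exact ⟨Or.inl (mb_zero m hm1 hne), fun _ => mb_zero m hm1 hne⟩

theorem all_degrees :
    ∃ K : ℝ, 0 ≤ K ∧ ∀ (n : ℕ) (c : ℕ → ℂ), 2 ≤ n →
      (MB K n c ∨ MB K n (fun j => -c j)) ∧
      (volume {θ ∈ Icc 0 (2 * Real.pi) | 0 < (Gn n c θ).im} ≤ ENNReal.ofReal (1 / 4) →
        MB K n c) :=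
  main (tE' (tA3' tA1 tA2) tB tC tD) tF tH

/-- with a characteristic direction all closed orbits around the origin are counterclockwise -/
theorem around_sub_ccw_VH {n : ℕ} (hn : 2 ≤ n) {c : ℕ → ℂ} (hw : ∃ θ, 0 ≤ (Gn n c θ).im)
    (μ : ℝ) : around (VH n c μ) ⊆ ccw (VH n c μ) := by
  obtain ⟨m, rfl⟩ : ∃ m, n = m + 1 := ⟨n - 1, by omega⟩
  exact around_sub_ccw (m := m) (G1 := fun θ => (Gn (m + 1) c θ).re)
    (G2 := fun θ => (Gn (m + 1) c θ).im) (μ := μ) (continuous_VH _ _ _) (by omega)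
    (fun θ => by simp only [Gn_per]) hw (fun r θ _ => VH_polar m c μ r θ)

end

end Pool.Agent.H756.OD
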