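import Pool.Agent.H756.OD.Sub
import Pool.Agent.H756.OD.Main

/-! Closed orbits which are partly close to the origin: the total over all traces. -/

open Set MeasureTheory Topology Filter
open scoped ENNReal

namespace Pool.Agent.H756.OD

open Pool.Agent.H811R2.Quad

noncomputable section

/-- the graph `v` is close to the origin in directions of total measure at least `a` -/
def nearq (L A a : ℝ) (v : ℝ → ℝ) : Prop :=
  ENNReal.ofReal a ≤ volume {θ | θ ∈ Icc 0 (2 * Real.pi) ∧ L ≤ A * v θ}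

lemma nearq_low {L A a : ℝ} (hL : 0 < L) (hA : 0 < A) (ha : 0 < a) {v : ℝ → ℝ}
    (hv0 : ∀ θ, 0 < v θ) (hv : Continuous v) (h : nearq L A a v) :
    a / (1 + A) ^ 2 ≤ ellv (fun _ => L) v := by
  set S : Set ℝ := {θ | θ ∈ Icc 0 (2 * Real.pi) ∧ L ≤ A * v θ} with hS
  have hSm : MeasurableSet S :=
    (isClosed_Icc.inter (isClosed_le continuous_const (continuous_const.mul hv))).measurableSet
  have hSsub : S ⊆ Icc 0 (2 * Real.pi) := fun θ hθ => hθ.1
  have hSfin : volume S ≠ ⊤ := by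
    apply ne_top_of_le_ne_top _ (measure_mono hSsub)
    rw [Real.volume_Icc]
    exact ENNReal.ofReal_ne_top
  have hXc : Continuous fun θ => X L (v θ) ^ 2 :=
    (continuous_Xs (s := fun _ => L) continuous_const (fun _ => hL) hv hv0).pow 2
  have h1 : ellv (fun _ => L) v = ∫ θ in Icc 0 (2 * Real.pi), X L (v θ) ^ 2 := by
    unfold ellv
    rw [intervalIntegral.integral_of_le (by positivity), integral_Icc_eq_integral_Ioc]
  have h2 : ∫ θ in S, X L (v θ) ^ 2 ≤ ∫ θ in Icc 0 (2 * Real.pi), X L (v θ) ^ 2 :=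
    setIntegral_mono_set hXc.integrableOn_Icc (Eventually.of_forall fun θ => sq_nonneg _)
      hSsub.eventuallyLE
  have h3 : ∫ θ in S, (1 / (1 + A)) ^ 2 ≤ ∫ θ in S, X L (v θ) ^ 2 := by
    refine setIntegral_mono_on (integrableOn_const hSfin)
      (hXc.integrableOn_Icc.mono_set hSsub) hSm ?_
    rintro θ ⟨-, hθ⟩
    apply pow_le_pow_left₀ (by positivity)
    have := hv0 θ
    unfold X
    rw [div_le_div_iff₀ (by positivity) (by positivity)]
    nlinarith
  have h4 : ∫ θ in S, (1 / (1 + A)) ^ 2 = (volume S).toReal * (1 / (1 + A)) ^ 2 := by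
    rw [setIntegral_const, smul_eq_mul]
    rfl
  have h5 : a ≤ (volume S).toReal := by
    have := ENNReal.toReal_mono hSfin h
    rwa [ENNReal.toReal_ofReal ha.le] at this
  rw [h1]
  refine le_trans ?_ (h3.trans h2)
  rw [h4, one_div, inv_pow, ← div_eq_mul_inv]
  exact div_le_div_of_nonneg_right h5 (by positivity)

lemma nearq_reflect {L A a : ℝ} {v : ℝ → ℝ} (hper : ∀ θ, v (θ + 2 * Real.pi) = v θ)
    (hv : Continuous v) (h : nearq L A a v) : nearq L A a (fun θ => v (-θ)) := by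
  unfold nearq at h ⊢
  set S : Set ℝ := {θ | θ ∈ Icc 0 (2 * Real.pi) ∧ L ≤ A * v θ} with hS
  have hSm : MeasurableSet S :=
    (isClosed_Icc.inter (isClosed_le continuous_const (continuous_const.mul hv))).measurableSet
  have e : {θ : ℝ | θ ∈ Icc 0 (2 * Real.pi) ∧ L ≤ A * v (-θ)} =
      (fun θ => 2 * Real.pi - θ) ⁻¹' S := by
    ext θ
    simp only [hS, mem_ofPred_eq, mem_preimage, mem_Icc]
    have e1 : v (2 * Real.pi - θ) = v (-θ) := by
      rw [← hper (-θ)]
      congr 1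
      ring
    rw [e1]
    constructor
    · rintro ⟨⟨h1, h2⟩, h3⟩
      exact ⟨⟨by linarith, by linarith⟩, h3⟩
    · rintro ⟨⟨h1, h2⟩, h3⟩
      exact ⟨⟨by linarith, by linarith⟩, h3⟩
  rw [e, ((volume : Measure ℝ).measurePreserving_sub_left (2 * Real.pi)).measure_preimage
    hSm.nullMeasurableSet]
  exact h

/-- gluing over the whole line -/
lemma glueR {N : ℝ → ℝ≥0∞} {gp gm : ℝ → ℝ≥0∞} (hgp : Measurable gp) (hgm : Measurable gm)
    (h1 : ∀ μ, 0 < μ → N μ ≤ gp μ) (h2 : ∀ μ, 0 < μ → N (-μ) ≤ gm μ)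
    {K : ℝ} (hp : ∫⁻ t, gp t ≤ ENNReal.ofReal K) (hm : ∫⁻ t, gm t ≤ ENNReal.ofReal K)
    (hK : 0 ≤ K) :
    ∃ g : ℝ → ℝ≥0∞, Measurable g ∧ (∀ μ, N μ ≤ g μ) ∧ ∫⁻ μ, g μ ≤ ENNReal.ofReal (2 * K) := by
  refine ⟨fun t => gp t + gm (-t) + ({0} : Set ℝ).indicator (fun _ => ⊤) t, ?_, ?_, ?_⟩
  · exact (hgp.add (hgm.comp measurable_neg)).add
      (measurable_const.indicator (measurableSet_singleton 0))
  · intro t
    rcases lt_trichotomy t 0 with h | h | h
    · have := h2 (-t) (by linarith)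
      rw [neg_neg] at this
      calc N t ≤ gm (-t) := this
        _ ≤ gp t + gm (-t) := le_add_self
        _ ≤ _ := le_self_add
    · subst h
      simp
    · calc N t ≤ gp t := h1 t h
        _ ≤ gp t + gm (-t) := le_self_add
        _ ≤ _ := le_self_add
  · rw [lintegral_add_right _ (measurable_const.indicator (measurableSet_singleton 0)),
      lintegral_add_left hgp]
    have e1 : ∫⁻ t, gm (-t) = ∫⁻ t, gm t := by
      have := (Measure.measurePreserving_neg (volume : Measure ℝ)).lintegral_comp hgm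
      exact this
    have e2 : ∫⁻ t, ({0} : Set ℝ).indicator (fun _ => (⊤:ℝ≥0∞)) t = 0 := by
      rw [lintegral_indicator (measurableSet_singleton 0)]
      simp
    rw [e1, e2, add_zero, two_mul, ENNReal.ofReal_add hK hK]
    exact add_le_add hp hm

/-- the counterclockwise closed orbits which meet the disc `|z| ^ m L ≤ A` in directions of total
measure at least `a` -/
def inner (V : ℂ → ℂ) (m : ℕ) (L A a : ℝ) : Set (Set ℂ) :=
  {C | C ∈ ccw V ∧ ENNReal.ofReal a ≤ volume {θ : ℝ | θ ∈ Icc 0 (2 * Real.pi) ∧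
    ∃ r : ℝ, 0 < r ∧ r ^ m * L ≤ A ∧ (r : ℂ) * Complex.exp (θ * Complex.I) ∈ C}}

/-- the points of the curve of a graph -/
lemma curve_point {m : ℕ} (hm : 0 < m) {v : ℝ → ℝ} (hper : ∀ θ, v (θ + 2 * Real.pi) = v θ)
    (hv0 : ∀ θ, 0 < v θ) {r θ : ℝ} (hr : 0 < r)
    (h : (r : ℂ) * Complex.exp (θ * Complex.I) ∈ curve m v) : r ^ m * v θ = 1 := by
  obtain ⟨φ, hφ⟩ := h
  simp only at hφ
  have hmR : (0:ℝ) < m := by exact_mod_cast hm
  have e0 : Complex.exp (((-Real.log (v φ) / m : ℝ) : ℂ) + φ * Complex.I) =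
      ((Real.exp (-Real.log (v φ) / m) : ℝ) : ℂ) * Complex.exp (φ * Complex.I) := by
    rw [Complex.exp_add, Complex.ofReal_exp]
  rw [e0] at hφ
  have e1 : Real.exp (-Real.log (v φ) / m) = r := by
    have := congrArg norm hφ
    rw [norm_mul, norm_mul, Complex.norm_exp_ofReal_mul_I, Complex.norm_exp_ofReal_mul_I, mul_one,
      mul_one, Complex.norm_real, Complex.norm_real, Real.norm_of_nonneg (Real.exp_pos _).le,
      Real.norm_of_nonneg hr.le] at this
    exact this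
  rw [e1] at hφ
  have e2 := mul_left_cancel₀ (by exact_mod_cast hr.ne') hφ
  rw [Complex.exp_eq_exp_iff_exists_int] at e2
  obtain ⟨n, hn⟩ := e2
  have h5 := congrArg Complex.im hn
  simp at h5
  have hp : Function.Periodic v (2 * Real.pi) := hper
  have e3 : v φ = v θ := by
    rw [h5]
    exact (hp.int_mul n) θ
  rw [← e1, ← Real.exp_nat_mul, ← e3]
  have e4 : (m : ℝ) * (-Real.log (v φ) / m) = -Real.log (v φ) := by field_simp
  rw [e4, Real.exp_neg, Real.exp_log (hv0 φ), inv_mul_cancel₀ (hv0 φ).ne']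

lemma inner_le (m : ℕ) (hm1 : 1 ≤ m) (c : ℕ → ℂ) {L A : ℝ} (a : ℝ) (μ : ℝ) :
    (inner (VH (m + 1) c μ) m L A a).encard ≤
      ({v | PSol (fun θ => m * (Gn (m + 1) c θ).re) (fun θ => (Gn (m + 1) c θ).im)
        (m * μ) v ∧ nearq L A a v} : Set (ℝ → ℝ)).encard := by
  have hsub : inner (VH (m + 1) c μ) m L A a ⊆ (curve m) ''
      {v | PSol (fun θ => m * (Gn (m + 1) c θ).re) (fun θ => (Gn (m + 1) c θ).im)
        (m * μ) v ∧ nearq L A a v} := by
    rintro C ⟨hC, hCa⟩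
    obtain ⟨v, hv, rfl⟩ := ccw_sub (V := VH (m + 1) c μ) (G1 := fun θ => (Gn (m + 1) c θ).re)
      (G2 := fun θ => (Gn (m + 1) c θ).im) (μ := μ) hm1
      (Complex.reCLM.contDiff.comp (contDiff_Gn (m + 1) c))
      (Complex.imCLM.contDiff.comp (contDiff_Gn (m + 1) c))
      (fun θ => by simp only [Gn_per]) (fun θ => by simp only [Gn_per])
      (fun r θ _ => VH_polar m c μ r θ) hC
    refine ⟨v, ⟨hv, hCa.trans (measure_mono ?_)⟩, rfl⟩
    rintro θ ⟨hθ, r, hr, hrL, hrC⟩
    refine ⟨hθ, ?_⟩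
    have h1 := curve_point hm1 hv.per hv.pos hr hrC
    have h2 := hv.pos θ
    calc L = (r ^ m * v θ) * L := by rw [h1, one_mul]
      _ = (r ^ m * L) * v θ := by ring
      _ ≤ A * v θ := mul_le_mul_of_nonneg_right hrL h2.le
  exact (encard_le_encard hsub).trans (encard_image_le _ _)

theorem inner_total : ∃ K : ℝ, 0 ≤ K ∧ ∀ (m : ℕ) (c : ℕ → ℂ), 1 ≤ m → ∀ L : ℝ, 0 < L →
    (∀ θ, ‖Gn (m + 1) c θ‖ ≤ L) → ∀ A a : ℝ, 0 < A → 0 < a →
    ∃ g : ℝ → ℝ≥0∞, Measurable g ∧
      (∀ μ : ℝ, (((inner (VH (m + 1) c μ) m L A a).encard : ℕ∞) : ℝ≥0∞) ≤ g μ) ∧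
      ∫⁻ μ, g μ ≤ ENNReal.ofReal (K * ((1 + A) ^ 2 / a)) := by
  obtain ⟨C, hC0, hC⟩ := total_sub 21 (by norm_num)
  refine ⟨2 * C, by positivity, ?_⟩
  intro m c hm1 L hL hG A a hA ha
  have hmR : (1:ℝ) ≤ m := by exact_mod_cast hm1
  have hm0 : (0:ℝ) < m := by linarith
  have hcG1 : Continuous fun θ => (Gn (m + 1) c θ).re :=
    Complex.continuous_re.comp (contDiff_Gn (m + 1) c).continuous
  have hdG2 : ∀ θ, HasDerivAt (fun θ => (Gn (m + 1) c θ).im)
      (Gn' (m + 1) c θ).im θ := fun θ => by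
    have := (hasDerivAt_Gn (m + 1) c θ)
    exact (Complex.imCLM.hasFDerivAt.comp_hasDerivAt θ this)
  have hcG2' : Continuous fun θ => (Gn' (m + 1) c θ).im :=
    Complex.continuous_im.comp (continuous_Gn' (m + 1) c)
  have hperG2 : ∀ θ, (Gn (m + 1) c (θ + 2 * Real.pi)).im = (Gn (m + 1) c θ).im :=
    fun θ => by rw [Gn_per]
  have b1 : ∀ θ, |(Gn (m + 1) c θ).re| ≤ 21 * L := fun θ =>
    ((Complex.abs_re_le_norm _).trans (hG θ)).trans (by linarith)
  have b2 : ∀ θ, |(Gn (m + 1) c θ).im| ≤ 21 * L := fun θ =>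
    ((Complex.abs_im_le_norm _).trans (hG θ)).trans (by linarith)
  have b3 : ∀ θ, |(Gn' (m + 1) c θ).im| ≤ m * 21 * L := fun θ => by
    refine (Complex.abs_im_le_norm _).trans ((norm_Gn'_le (by omega) hG θ).trans ?_)
    apply mul_le_mul_of_nonneg_right _ hL.le
    push_cast
    linarith
  have b4 : ∀ _ : ℝ, |(0:ℝ)| ≤ m * 21 * L := fun _ => by
    rw [abs_zero]; positivity
  have hcpos : 0 < a / (1 + A) ^ 2 := by positivity
  have hlow : ∀ v : ℝ → ℝ, (∀ θ, 0 < v θ) → Continuous v → nearq L A a v →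
      a / (1 + A) ^ 2 ≤ ellv (fun _ => L) v := fun v h1 h2 h3 => nearq_low hL hA ha h1 h2 h3
  obtain ⟨gp, hgp1, hgp2, hgp3⟩ := hC m (fun θ => (Gn (m + 1) c θ).re)
    (fun θ => (Gn (m + 1) c θ).im) (fun θ => (Gn' (m + 1) c θ).im) (fun _ => L) (fun _ => 0)
    hm0 hcG1 hdG2 hcG2' hperG2 (fun θ => hasDerivAt_const θ L) continuous_const (fun _ => hL)
    (fun _ => rfl) b1 b2 b3 b4 _ hcpos (nearq L A a) hlow
  obtain ⟨gm, hgm1, hgm2, hgm3⟩ := hC m (fun θ => -(Gn (m + 1) c (-θ)).re)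
    (fun θ => (Gn (m + 1) c (-θ)).im) (fun θ => -(Gn' (m + 1) c (-θ)).im)
    (fun _ => L) (fun _ => 0) hm0 (hcG1.comp continuous_neg).neg
    (fun θ => by
      have := (hdG2 (-θ)).comp θ (hasDerivAt_neg θ)
      refine this.congr_deriv ?_
      ring)
    (hcG2'.comp continuous_neg).neg
    (fun θ => by
      have := hperG2 (-(θ + 2 * Real.pi))
      rw [← this]
      congr 2
      ring)
    (fun θ => hasDerivAt_const θ L) continuous_const (fun _ => hL)
    (fun _ => rfl) (fun θ => by rw [abs_neg]; exact b1 _) (fun θ => b2 _)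
    (fun θ => by rw [abs_neg]; exact b3 _) b4 _ hcpos (nearq L A a) hlow
  have hfin := glueR
    (N := fun μ => (((inner (VH (m + 1) c μ) m L A a).encard : ℕ∞) : ℝ≥0∞))
    hgp1 hgm1 (K := C / (a / (1 + A) ^ 2)) (fun μ h0 => ?_) (fun μ h0 => ?_)
    hgp3 hgm3 (by positivity)
  · obtain ⟨g, hg1, hg2, hg3⟩ := hfin
    refine ⟨g, hg1, hg2, hg3.trans (le_of_eq ?_)⟩
    congr 1
    field_simp
  · exact le_trans (by exact_mod_cast inner_le m hm1 c a μ) (hgp2 μ h0)
  · refine le_trans ?_ (hgm2 μ h0)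
    have h1 := inner_le m hm1 c (L := L) (A := A) a (-μ)
    have h2 : ({v | PSol (fun θ => m * (Gn (m + 1) c θ).re) (fun θ => (Gn (m + 1) c θ).im)
        (m * -μ) v ∧ nearq L A a v} : Set (ℝ → ℝ)).encard ≤
        ({v | PSol (fun θ => m * -(Gn (m + 1) c (-θ)).re) (fun θ => (Gn (m + 1) c (-θ)).im)
        (m * μ) v ∧ nearq L A a v} : Set (ℝ → ℝ)).encard := by
      have hinj : Function.Injective (fun (v : ℝ → ℝ) (θ : ℝ) => v (-θ)) := by
        intro v w hvw
        funext θ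
        have := congrFun hvw (-θ)
        simpa using this
      rw [← hinj.encard_image {v | PSol (fun θ => m * (Gn (m + 1) c θ).re)
        (fun θ => (Gn (m + 1) c θ).im) (m * -μ) v ∧ nearq L A a v}]
      apply encard_le_encard
      rintro _ ⟨v, ⟨hv, hq⟩, rfl⟩
      refine ⟨?_, nearq_reflect hv.per hv.cont hq⟩
      have hR := hv.reflect
      have e1 : (fun θ => -(fun θ => m * (Gn (m + 1) c θ).re) (-θ)) =
          fun θ => m * -(Gn (m + 1) c (-θ)).re := by
        funext θ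
        ring
      rw [e1, show -((m:ℝ) * -μ) = m * μ by ring] at hR
      exact hR
    exact_mod_cast h1.trans h2

/-- closed orbits around the origin in the disc `|z| ^ m L ≤ 1` -/
theorem around_disc {m : ℕ} (hm1 : 1 ≤ m) {c : ℕ → ℂ} {L : ℝ}
    (hG : ∀ θ, ‖Gn (m + 1) c θ‖ ≤ L) {μ : ℝ} {C : Set ℂ} (hC : C ∈ around (VH (m + 1) c μ))
    (hdisc : ∀ z ∈ C, ‖z‖ ^ m * L ≤ 1) :
    C ∈ inner (VH (m + 1) c μ) m L 1 (2 * Real.pi) := by
  set V := VH (m + 1) c μ with hV
  have hVc : Continuous V := continuous_VH _ _ _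
  have hccw : C ∈ ccw V := by
    obtain ⟨⟨γ, T, hT0, hγ, hγT, rfl⟩, h0C, hbd⟩ := hC
    have hγ0 : ∀ t, γ t ≠ 0 := fun t h => h0C ⟨t, h⟩
    have hγc : Continuous γ := continuous_iff_continuousAt.2 fun t => (hγ t).continuousAt
    have hWc : Continuous fun t => V (γ t) / γ t := (hVc.comp hγc).div hγc hγ0
    obtain ⟨ϑ, ρ, dϑ, dρ, hpol⟩ := exists_lift hWc hγ0 (fun t => by
      rw [div_mul_cancel₀ _ (hγ0 t)]; exact hγ t)
    have hρ : Differentiable ℝ ρ := fun t => (dρ t).differentiableAt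
    have hϑ : Differentiable ℝ ϑ := fun t => (dϑ t).differentiableAt
    obtain ⟨hL, -⟩ := lft_of_lift (V := V) (G1 := fun θ => (Gn (m + 1) c θ).re)
      (G2 := fun θ => (Gn (m + 1) c θ).im) (μ := μ) hm1 (fun r θ _ => VH_polar m c μ r θ)
      hγ hρ hϑ hpol
    obtain ⟨hρT, hκ, k, hk⟩ := lift_per dϑ hγT hpol
    have hnorm : ∀ t, ‖γ t‖ = Real.exp (ρ t) := by
      intro t
      rw [hpol t, Complex.norm_exp]
      congr 1
      simp
    have hmono : Monotone ϑ := by
      apply monotone_of_deriv_nonneg hϑ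
      intro t
      rw [(hL.dθ t).deriv]
      have h1 := hdisc (γ t) ⟨t, rfl⟩
      rw [hnorm, ← Real.exp_nat_mul] at h1
      have h2 := (Complex.abs_im_le_norm _).trans (hG (ϑ t))
      have h3 := (abs_le.1 h2).1
      have h4 := Real.exp_pos (m * ρ t)
      nlinarith
    refine ⟨γ, T, hT0, hγ, hγT, rfl, ρ, ϑ, hρ, hϑ, hpol, ?_⟩
    rcases eq_or_lt_of_le (hmono hT0.le) with h | h
    · exfalso
      -- the angle is constant
      have hT : ∀ t, ϑ (t + T) = ϑ t := fun t => by rw [hκ, h]; ring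
      have hTn : ∀ (n : ℕ) t, ϑ (t + n * T) = ϑ t := by
        intro n
        induction n with
        | zero => intro t; simp
        | succ n ih =>
          intro t
          rw [show t + ((n + 1 : ℕ) : ℝ) * T = (t + n * T) + T by push_cast; ring, hT, ih]
      have hle : ∀ s t, ϑ s ≤ ϑ t := by
        intro s t
        obtain ⟨n, hn⟩ := exists_nat_gt ((s - t) / T)
        rw [div_lt_iff₀ hT0] at hn
        have := hmono (show s ≤ t + n * T by linarith)
        rwa [hTn] at this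
      have hconst : ∀ t, ϑ t = ϑ 0 := fun t => le_antisymm (hle _ _) (hle _ _)
      set ray : Set ℂ := (fun r : ℝ => (r : ℂ) * Complex.exp (ϑ 0 * Complex.I)) '' Iic 0 with hray
      have hsub : ray ⊆ (Set.range γ)ᶜ := by
        rintro z ⟨r, hr, rfl⟩ ⟨t, ht⟩
        have hr0 : r ≤ (0:ℝ) := hr
        have h3 : γ t = ((Real.exp (ρ t) : ℝ) : ℂ) * Complex.exp (ϑ 0 * Complex.I) := by
          rw [hpol t, Complex.exp_add, hconst t, Complex.ofReal_exp]
        simp only at ht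
        rw [h3] at ht
        have h4 := mul_right_cancel₀ (Complex.exp_ne_zero _) ht
        have h5 : Real.exp (ρ t) = r := by exact_mod_cast h4
        have := Real.exp_pos (ρ t)
        linarith
      have hconn : IsPreconnected ray := by
        apply IsPreconnected.image (convex_Iic 0).isPreconnected
        exact (Complex.continuous_ofReal.mul continuous_const).continuousOn
      have h0ray : (0:ℂ) ∈ ray := ⟨0, self_mem_Iic, by simp⟩
      have hsub2 := hconn.subset_connectedComponentIn h0ray hsub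
      have hbd2 := hbd.subset hsub2
      obtain ⟨R, hR⟩ := hbd2.exists_norm_le
      have h7 := hR (((-(|R| + 1) : ℝ) : ℂ) * Complex.exp (ϑ 0 * Complex.I))
        ⟨-(|R| + 1), by simp only [mem_Iic]; have := abs_nonneg R; linarith, rfl⟩
      rw [norm_mul, Complex.norm_real, Complex.norm_exp_ofReal_mul_I, mul_one, norm_neg,
        Real.norm_of_nonneg (by positivity)] at h7
      have := le_abs_self R
      linarith
    · exact h
  refine ⟨hccw, ?_⟩
  obtain ⟨v, hv, hCv⟩ := ccw_sub (V := V) (G1 := fun θ => (Gn (m + 1) c θ).re)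
    (G2 := fun θ => (Gn (m + 1) c θ).im) (μ := μ) hm1
    (Complex.reCLM.contDiff.comp (contDiff_Gn (m + 1) c))
    (Complex.imCLM.contDiff.comp (contDiff_Gn (m + 1) c))
    (fun θ => by simp only [Gn_per]) (fun θ => by simp only [Gn_per])
    (fun r θ _ => VH_polar m c μ r θ) hccw
  have hall : {θ : ℝ | θ ∈ Icc 0 (2 * Real.pi) ∧
      ∃ r : ℝ, 0 < r ∧ r ^ m * L ≤ 1 ∧ (r : ℂ) * Complex.exp (θ * Complex.I) ∈ C} =
      Icc 0 (2 * Real.pi) := by
    ext θ
    constructor
    · exact fun h => h.1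
    · intro hθ
      have hmem : ((Real.exp (-Real.log (v θ) / m) : ℝ) : ℂ) * Complex.exp (θ * Complex.I) ∈ C := by
        rw [hCv]
        refine ⟨θ, ?_⟩
        simp only
        rw [Complex.exp_add, Complex.ofReal_exp]
      refine ⟨hθ, Real.exp (-Real.log (v θ) / m), Real.exp_pos _, ?_, hmem⟩
      have h1 := hdisc _ hmem
      rwa [norm_mul, Complex.norm_exp_ofReal_mul_I, mul_one, Complex.norm_real,
        Real.norm_of_nonneg (Real.exp_pos _).le] at h1
  rw [hall, Real.volume_Icc, sub_zero]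

end

end Pool.Agent.H756.OD
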