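import Pool.Agent.H811R2.T.Defs

/-! Lower bound for the weighted length of a single graph over a window, on at least half of which
the angular part is nonpositive. -/

open Set MeasureTheory Topology Filter
open scoped ENNReal

namespace Pool.Agent.H756.OD

open Pool.Agent.H811R2.Quad

noncomputable section

/-- the indicator of the set on which `G` is nonpositive -/
def ind (G : ℝ → ℝ) : ℝ → ℝ := {θ | G θ ≤ 0}.indicator fun _ => (1 : ℝ)

lemma ind_nonneg (G : ℝ → ℝ) (θ : ℝ) : 0 ≤ ind G θ := by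
  unfold ind
  exact indicator_nonneg (fun _ _ => zero_le_one) θ

lemma ind_le_one (G : ℝ → ℝ) (θ : ℝ) : ind G θ ≤ 1 := by
  unfold ind
  by_cases h : θ ∈ {θ | G θ ≤ 0}
  · rw [indicator_of_mem h]
  · rw [indicator_of_notMem h]; exact zero_le_one

lemma ind_of_nonpos {G : ℝ → ℝ} {θ : ℝ} (h : G θ ≤ 0) : ind G θ = 1 := by
  unfold ind
  rw [indicator_of_mem]
  exact h

lemma ind_of_pos {G : ℝ → ℝ} {θ : ℝ} (h : 0 < G θ) : ind G θ = 0 := by
  unfold ind
  rw [indicator_of_notMem]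
  simp only [mem_ofPred_eq, not_le]
  exact h

lemma ind_integrable {G : ℝ → ℝ} (hG : Continuous G) (a b : ℝ) :
    IntervalIntegrable (ind G) volume a b := by
  have hms : MeasurableSet {θ | G θ ≤ 0} := measurableSet_le hG.measurable measurable_const
  have hm : Measurable (ind G) := measurable_const.indicator hms
  refine (intervalIntegrable_const (c := (1:ℝ)) (a := a) (b := b)).mono_fun
    hm.aestronglyMeasurable ?_
  filter_upwards with θ
  rw [Real.norm_of_nonneg (ind_nonneg G θ), norm_one]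
  exact ind_le_one G θ

/-- splitting the mass of the indicator -/
lemma exists_split {G : ℝ → ℝ} (hG : Continuous G) {x0 x1 a : ℝ} (hx : x0 ≤ x1) (ha : 0 ≤ a)
    (haI : a ≤ ∫ θ in x0..x1, ind G θ) :
    ∃ t ∈ Icc x0 x1, ∫ θ in x0..t, ind G θ = a := by
  have hc : Continuous fun t => ∫ θ in x0..t, ind G θ :=
    intervalIntegral.continuous_primitive (fun a b => ind_integrable hG a b) x0
  have h0 : ∫ θ in x0..x0, ind G θ = 0 := intervalIntegral.integral_same
  have := intermediate_value_Icc hx hc.continuousOn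
  obtain ⟨t, ht, hta⟩ := this (show a ∈ Icc _ _ from ⟨by rw [h0]; exact ha, haI⟩)
  exact ⟨t, ht, hta⟩

lemma ind_int_le {G : ℝ → ℝ} (hG : Continuous G) {a b : ℝ} (hab : a ≤ b) :
    ∫ θ in a..b, ind G θ ≤ b - a := by
  have := intervalIntegral.integral_mono_on hab (ind_integrable hG a b)
    (intervalIntegrable_const (c := (1:ℝ))) (fun θ _ => ind_le_one G θ)
  simpa using this

lemma ind_int_nonneg {G : ℝ → ℝ} {a b : ℝ} (hab : a ≤ b) :
    0 ≤ ∫ θ in a..b, ind G θ :=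
  intervalIntegral.integral_nonneg hab fun θ _ => ind_nonneg G θ

/-- a pointwise lower bound on a subinterval -/
lemma int_ge {f : ℝ → ℝ} (hf : Continuous f) (hf0 : ∀ x, 0 ≤ f x) {x0 x1 a b c : ℝ}
    (h0 : x0 ≤ a) (hab : a ≤ b) (h1 : b ≤ x1) (h : ∀ θ ∈ Icc a b, c ≤ f θ) :
    (b - a) * c ≤ ∫ θ in x0..x1, f θ := by
  have h2 : ∫ θ in a..b, f θ ≤ ∫ θ in x0..x1, f θ :=
    intervalIntegral.integral_mono_interval h0 hab h1 (Eventually.of_forall hf0)
      (hf.intervalIntegrable _ _)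
  have h3 : ∫ θ in a..b, c ≤ ∫ θ in a..b, f θ :=
    intervalIntegral.integral_mono_on hab (by simp) (hf.intervalIntegrable _ _) h
  rw [intervalIntegral.integral_const, smul_eq_mul] at h3
  exact h3.trans h2

lemma X_ge {s v ρ γ S : ℝ} (hs0 : 0 < s) (hv0 : 0 < v) (hγ : 0 < γ)
    (hS : 1 ≤ S) (hρ0 : 0 ≤ ρ) (hρ1 : ρ ≤ 1) (hs : s ≤ S * γ) (hM : ρ * γ ≤ v) :
    (ρ / (2 * S)) ^ 2 ≤ X s v ^ 2 := by
  apply pow_le_pow_left₀ (by positivity)
  unfold X
  rw [div_le_div_iff₀ (by positivity) (by positivity)]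
  have h1 : ρ * s ≤ ρ * (S * γ) := mul_le_mul_of_nonneg_left hs hρ0
  have h2 : ρ * (S * γ) = S * (ρ * γ) := by ring
  have h3 : S * (ρ * γ) ≤ S * v := mul_le_mul_of_nonneg_left hM (by linarith)
  have h4 : ρ * v ≤ S * v := mul_le_mul_of_nonneg_right (by linarith) hv0.le
  nlinarith

section graph

variable {m μ : ℝ} {G1 G2 v : ℝ → ℝ}

/-- the derivative of the graph -/
def dv (m μ : ℝ) (G1 G2 v : ℝ → ℝ) (θ : ℝ) : ℝ :=
  -(v θ * (m * μ * v θ + m * G1 θ)) / (v θ + G2 θ)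

lemma dv_cont (hG1 : Continuous G1) (hG2 : Continuous G2)
    (hP : GSol (fun θ => m * G1 θ) G2 (m * μ) v) : Continuous (dv m μ G1 G2 v) := by
  have hv := hP.cont
  unfold dv
  exact Continuous.div (by fun_prop) (by fun_prop) fun θ => (hP.pos' θ).ne'

lemma dv_int (hG1 : Continuous G1) (hG2 : Continuous G2)
    (hP : GSol (fun θ => m * G1 θ) G2 (m * μ) v) (a b : ℝ) :
    ∫ θ in a..b, dv m μ G1 G2 v θ = v b - v a :=
  intervalIntegral.integral_eq_sub_of_hasDerivAt (fun θ _ => hP.deriv θ)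
    ((dv_cont hG1 hG2 hP).intervalIntegrable _ _)

/-- case (a): `G₁ ≥ 9/20 γ` -/
lemma low_a (hm : 0 < m) (hμ : 0 < μ) (hG1 : Continuous G1) (hG2 : Continuous G2)
    (hP : GSol (fun θ => m * G1 θ) G2 (m * μ) v) {a b γ : ℝ} (hab : a ≤ b) (hγ : 0 < γ)
    (hG : ∀ θ ∈ Icc a b, 9 / 20 * γ ≤ G1 θ) :
    m * (9 / 20 * γ) * ∫ θ in a..b, ind G2 θ ≤ v a := by
  have h1 := dv_int hG1 hG2 hP a b
  have h2 : ∫ θ in a..b, dv m μ G1 G2 v θ ≤ ∫ θ in a..b, -(m * (9 / 20 * γ)) * ind G2 θ := by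
    apply intervalIntegral.integral_mono_on hab ((dv_cont hG1 hG2 hP).intervalIntegrable _ _)
      ((ind_integrable hG2 _ _).const_mul _)
    intro θ hθ
    have hv := hP.pos θ
    have hv' := hP.pos' θ
    have h3 := hG θ hθ
    have h4 : 0 < m * μ * v θ := by positivity
    have h5 : m * (9 / 20 * γ) ≤ m * G1 θ := mul_le_mul_of_nonneg_left h3 hm.le
    unfold dv
    rw [div_le_iff₀ hv']
    rcases le_or_gt (G2 θ) 0 with h | h
    · rw [ind_of_nonpos h, mul_one]
      have h6 : 0 < m * (9 / 20 * γ) := by positivity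
      nlinarith
    · rw [ind_of_pos h, mul_zero, zero_mul]
      have h6 : 0 < m * (9 / 20 * γ) := by positivity
      have : 0 < v θ * (m * μ * v θ + m * G1 θ) := by
        apply mul_pos hv
        linarith
      linarith
  rw [h1, intervalIntegral.integral_const_mul] at h2
  have := hP.pos b
  linarith

/-- case (b): `G₁ ≤ - 9/20 γ`, below the barrier -/
lemma low_b (hm : 0 < m) (hμ : 0 < μ) (hG1 : Continuous G1) (hG2 : Continuous G2)
    (hP : GSol (fun θ => m * G1 θ) G2 (m * μ) v) {a b γ : ℝ} (hab : a ≤ b) (hγ : 0 < γ)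
    (hG : ∀ θ ∈ Icc a b, G1 θ ≤ -(9 / 20 * γ)) (hb : μ * v b < 9 / 40 * γ) :
    m * (9 / 40 * γ) * ∫ θ in a..b, ind G2 θ ≤ v b := by
  -- below the barrier all along
  have hbar : ∀ t ∈ Icc a b, μ * v t < 9 / 40 * γ := by
    intro t ht
    by_contra hcon
    push Not at hcon
    have := image_le_of_deriv_right_lt_deriv_boundary' (f := fun t => -v t)
      (f' := fun t => -(dv m μ G1 G2 v t)) (a := t) (b := b)
      (B := fun _ => -(9 / 40 * γ / μ)) (B' := fun _ => 0)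
      hP.cont.neg.continuousOn (fun y _ => (hP.deriv y).neg.hasDerivWithinAt)
      (by
        have : 9 / 40 * γ / μ ≤ v t := by rw [div_le_iff₀ hμ]; linarith
        linarith) continuousOn_const
      (fun y _ => (hasDerivAt_const y (-(9 / 40 * γ / μ))).hasDerivWithinAt) ?_ ⟨ht.2, le_rfl⟩
    · have h2 : 9 / 40 * γ / μ ≤ v b := by simpa using this
      rw [div_le_iff₀ hμ] at h2
      linarith
    · intro y hy hy2
      have hy1 : v y = 9 / 40 * γ / μ := by simpa using hy2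
      have hy3 : μ * v y = 9 / 40 * γ := by rw [hy1]; field_simp
      have hv := hP.pos y
      have hv' := hP.pos' y
      have h3 := hG y ⟨ht.1.trans hy.1, hy.2.le⟩
      have h4 : μ * v y + G1 y < 0 := by linarith
      have h5 : 0 < -(v y * (m * μ * v y + m * G1 y)) := by
        have : -(v y * (m * μ * v y + m * G1 y)) = v y * (m * (-(μ * v y + G1 y))) := by ring
        rw [this]
        have : 0 < -(μ * v y + G1 y) := by linarith
        positivity
      have h6 : 0 < dv m μ G1 G2 v y := by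
        unfold dv
        exact div_pos h5 hv'
      show -(dv m μ G1 G2 v y) < 0
      linarith
  have h1 := dv_int hG1 hG2 hP a b
  have h2 : ∫ θ in a..b, m * (9 / 40 * γ) * ind G2 θ ≤ ∫ θ in a..b, dv m μ G1 G2 v θ := by
    apply intervalIntegral.integral_mono_on hab
      ((ind_integrable hG2 _ _).const_mul _) ((dv_cont hG1 hG2 hP).intervalIntegrable _ _)
    intro θ hθ
    have hv := hP.pos θ
    have hv' := hP.pos' θ
    have h3 := hG θ hθ
    have h4 := hbar θ hθ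
    have h5 : m * (9 / 40 * γ) ≤ m * (-(μ * v θ + G1 θ)) :=
      mul_le_mul_of_nonneg_left (by linarith) hm.le
    have h7 : 0 < m * (9 / 40 * γ) := by positivity
    have e : -(v θ * (m * μ * v θ + m * G1 θ)) = v θ * (m * (-(μ * v θ + G1 θ))) := by ring
    unfold dv
    rw [le_div_iff₀ hv', e]
    rcases le_or_gt (G2 θ) 0 with h | h
    · rw [ind_of_nonpos h, mul_one]
      calc m * (9 / 40 * γ) * (v θ + G2 θ) ≤ m * (9 / 40 * γ) * v θ :=
            mul_le_mul_of_nonneg_left (by linarith) h7.le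
        _ ≤ m * (-(μ * v θ + G1 θ)) * v θ := mul_le_mul_of_nonneg_right h5 hv.le
        _ = _ := by ring
    · rw [ind_of_pos h, mul_zero, zero_mul]
      have : 0 < m * (-(μ * v θ + G1 θ)) := by linarith
      positivity
  rw [h1, intervalIntegral.integral_const_mul] at h2
  have := hP.pos a
  linarith

end graph

/-- the window lemma for a single graph -/
theorem win {m μ : ℝ} {G1 G2 v s : ℝ → ℝ} (hm : 0 < m) (hμ : 0 < μ) (hG1 : Continuous G1)
    (hG2 : Continuous G2) (hP : GSol (fun θ => m * G1 θ) G2 (m * μ) v) (hs : Continuous s)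
    (hs0 : ∀ θ, 0 < s θ) {x0 x1 η γ S : ℝ} (hx : x0 ≤ x1) (hη : 0 < η) (hmη : m * η ≤ 1)
    (hγ : 0 < γ) (hS : 1 ≤ S) (hsS : ∀ θ ∈ Icc x0 x1, s θ ≤ S * γ)
    (hind : η ≤ ∫ θ in x0..x1, ind G2 θ)
    (hcase : (∀ θ ∈ Icc x0 x1, 9 / 20 * γ ≤ G1 θ) ∨
      (∀ θ ∈ Icc x0 x1, G1 θ ≤ -(9 / 20 * γ)) ∨
      (∀ θ ∈ Icc x0 x1, 9 / 20 * γ ≤ |G2 θ|)) :
    η * (m * η) ^ 2 / (800 * S ^ 2 * (1 + μ ^ 2)) ≤ ∫ θ in x0..x1, X (s θ) (v θ) ^ 2 := by
  have hvc := hP.cont
  have hXc : Continuous fun θ => X (s θ) (v θ) := by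
    unfold X
    exact Continuous.div hvc (by fun_prop) fun θ => (add_pos (hP.pos θ) (hs0 θ)).ne'
  have hfc : Continuous fun θ => X (s θ) (v θ) ^ 2 := hXc.pow 2
  have hsq : 0 < Real.sqrt (1 + μ ^ 2) := Real.sqrt_pos.2 (by positivity)
  have hsq1 : 1 ≤ Real.sqrt (1 + μ ^ 2) := by
    rw [Real.one_le_sqrt]; nlinarith
  have hsqμ : μ ≤ Real.sqrt (1 + μ ^ 2) := Real.le_sqrt_of_sq_le (by linarith)
  set ρ : ℝ := 1 / 10 * (m * η) / Real.sqrt (1 + μ ^ 2) with hρ
  have hρ0 : 0 ≤ ρ := by positivity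
  have hρ1 : ρ ≤ 1 / 10 * (m * η) := by
    rw [hρ, div_le_iff₀ hsq]
    have : 0 ≤ 1 / 10 * (m * η) := by positivity
    nlinarith
  have hρμ : ρ * μ ≤ 1 / 10 := by
    have h1 : ρ * Real.sqrt (1 + μ ^ 2) = 1 / 10 * (m * η) := by
      rw [hρ]; field_simp
    have h2 : ρ * μ ≤ ρ * Real.sqrt (1 + μ ^ 2) := mul_le_mul_of_nonneg_left hsqμ hρ0
    linarith
  have hρ2 : ρ ≤ 1 := by linarith
  have hval : η / 2 * (ρ / (2 * S)) ^ 2 = η * (m * η) ^ 2 / (800 * S ^ 2 * (1 + μ ^ 2)) := by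
    have h1 : Real.sqrt (1 + μ ^ 2) ^ 2 = 1 + μ ^ 2 := Real.sq_sqrt (by positivity)
    rw [hρ, div_div, div_pow, mul_pow (Real.sqrt (1 + μ ^ 2)), h1]
    field_simp
    norm_num
  rw [← hval]
  have hmηγ : 0 < m * η * γ := by positivity
  have hργ : ρ * γ ≤ 1 / 10 * (m * η) * γ := mul_le_mul_of_nonneg_right hρ1 hγ.le
  rcases hcase with h | h | h
  · obtain ⟨t, ht, hta⟩ := exists_split hG2 hx (a := (∫ θ in x0..x1, ind G2 θ) - η / 2)
      (by linarith) (by linarith)
    have hadd : ∀ y, (∫ θ in x0..y, ind G2 θ) + (∫ θ in y..x1, ind G2 θ) =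
        ∫ θ in x0..x1, ind G2 θ := fun y =>
      intervalIntegral.integral_add_adjacent_intervals (ind_integrable hG2 _ _)
        (ind_integrable hG2 _ _)
    have h1 : η / 2 ≤ t - x0 := by
      have := ind_int_le hG2 ht.1
      linarith
    refine le_trans (mul_le_mul_of_nonneg_right h1 (sq_nonneg _)) ?_
    apply int_ge hfc (fun θ => sq_nonneg _) le_rfl ht.1 ht.2
    intro θ hθ
    have hθ1 : θ ∈ Icc x0 x1 := ⟨hθ.1, hθ.2.trans ht.2⟩
    apply X_ge (hs0 θ) (hP.pos θ) hγ hS hρ0 hρ2 (hsS θ hθ1)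
    have h2 := low_a hm hμ hG1 hG2 hP hθ1.2 hγ (fun y hy => h y ⟨hθ.1.trans hy.1, hy.2⟩)
    have h3 : η / 2 ≤ ∫ θ in θ..x1, ind G2 θ := by
      have e1 := hadd θ
      have e2 : (∫ θ in x0..θ, ind G2 θ) + (∫ y in θ..t, ind G2 y) = ∫ θ in x0..t, ind G2 θ :=
        intervalIntegral.integral_add_adjacent_intervals (ind_integrable hG2 _ _)
          (ind_integrable hG2 _ _)
      have e3 := ind_int_nonneg (G := G2) hθ.2
      linarith
    have h4 : m * (9 / 20 * γ) * (η / 2) ≤ m * (9 / 20 * γ) * ∫ θ in θ..x1, ind G2 θ :=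
      mul_le_mul_of_nonneg_left h3 (by positivity)
    nlinarith
  · obtain ⟨t, ht, hta⟩ := exists_split hG2 hx (a := η / 2) (by linarith) (by linarith)
    have e1 : (∫ θ in x0..t, ind G2 θ) + (∫ θ in t..x1, ind G2 θ) =
        ∫ θ in x0..x1, ind G2 θ :=
      intervalIntegral.integral_add_adjacent_intervals (ind_integrable hG2 _ _)
        (ind_integrable hG2 _ _)
    have h1 : η / 2 ≤ x1 - t := by
      have := ind_int_le hG2 ht.2
      linarith
    refine le_trans (mul_le_mul_of_nonneg_right h1 (sq_nonneg _)) ?_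
    apply int_ge hfc (fun θ => sq_nonneg _) ht.1 ht.2 le_rfl
    intro θ hθ
    have hθ1 : θ ∈ Icc x0 x1 := ⟨ht.1.trans hθ.1, hθ.2⟩
    apply X_ge (hs0 θ) (hP.pos θ) hγ hS hρ0 hρ2 (hsS θ hθ1)
    by_cases hb : μ * v θ < 9 / 40 * γ
    · have h2 := low_b hm hμ hG1 hG2 hP hθ1.1 hγ (fun y hy => h y ⟨hy.1, hy.2.trans hθ.2⟩) hb
      have h3 : η / 2 ≤ ∫ y in x0..θ, ind G2 y := by
        have e2 : (∫ y in x0..t, ind G2 y) + (∫ y in t..θ, ind G2 y) = ∫ y in x0..θ, ind G2 y :=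
          intervalIntegral.integral_add_adjacent_intervals (ind_integrable hG2 _ _)
            (ind_integrable hG2 _ _)
        have e3 := ind_int_nonneg (G := G2) hθ.1
        linarith
      have h4 : m * (9 / 40 * γ) * (η / 2) ≤ m * (9 / 40 * γ) * ∫ y in x0..θ, ind G2 y :=
        mul_le_mul_of_nonneg_left h3 (by positivity)
      nlinarith
    · push Not at hb
      have h2 : μ * (ρ * γ) ≤ μ * v θ := by
        have : μ * (ρ * γ) ≤ 1 / 10 * γ := by
          have := mul_le_mul_of_nonneg_right hρμ hγ.le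
          linarith
        linarith
      exact le_of_mul_le_mul_left h2 hμ
  · have h1 : ∫ θ in x0..x1, (ρ / (2 * S)) ^ 2 * ind G2 θ ≤ ∫ θ in x0..x1, X (s θ) (v θ) ^ 2 := by
      apply intervalIntegral.integral_mono_on hx ((ind_integrable hG2 _ _).const_mul _)
        (hfc.intervalIntegrable _ _)
      intro θ hθ
      rcases le_or_gt (G2 θ) 0 with h2 | h2
      · rw [ind_of_nonpos h2, mul_one]
        apply X_ge (hs0 θ) (hP.pos θ) hγ hS hρ0 hρ2 (hsS θ hθ)
        have h3 := h θ hθ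
        have h4 := hP.pos' θ
        rw [abs_of_nonpos h2] at h3
        nlinarith
      · rw [ind_of_pos h2, mul_zero]
        exact sq_nonneg _
    rw [intervalIntegral.integral_const_mul] at h1
    refine le_trans ?_ h1
    have h2 : 0 ≤ (ρ / (2 * S)) ^ 2 := sq_nonneg _
    nlinarith

end

end Pool.Agent.H756.OD
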