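import Pool.Agent.H811R2.T.J
import Pool.Agent.H756.OD.Win

/-! The weighted length of the periodic graphs is bounded below for one of the two signs of the
nonlinearity; no symmetry is needed. -/

open Set MeasureTheory Topology Filter
open scoped ENNReal

namespace Pool.Agent.H756.OD

open Pool.Agent.H811R2.Quad

noncomputable section

lemma norm_GC_add_pi (n : ℕ) (c : ℕ → ℂ) (z : ℂ) :
    ‖GC n c (z + Real.pi)‖ = ‖GC n c z‖ := by
  unfold GC
  have h2 : Complex.exp (2 * (z + Real.pi) * Complex.I) = Complex.exp (2 * z * Complex.I) := by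
    rw [show 2 * (z + Real.pi) * Complex.I = 2 * z * Complex.I +
      2 * Real.pi * Complex.I by ring, Complex.exp_periodic]
  rw [h2, norm_mul, norm_mul, Complex.norm_exp, Complex.norm_exp]
  congr 2
  simp

lemma Gn_per (n : ℕ) (c : ℕ → ℂ) (θ : ℝ) : Gn n c (θ + 2 * Real.pi) = Gn n c θ := by
  unfold Gn
  have h2 : Complex.exp (2 * ((θ + 2 * Real.pi : ℝ) : ℂ) * Complex.I) =
      Complex.exp (2 * (θ : ℂ) * Complex.I) := by
    rw [show 2 * ((θ + 2 * Real.pi : ℝ) : ℂ) * Complex.I = 2 * (θ : ℂ) * Complex.I +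
      (2 : ℕ) * (2 * Real.pi * Complex.I) by push_cast; ring,
      Complex.exp_periodic.nat_mul 2]
  have h1 : Complex.exp (-((n + 1 : ℕ) * ((θ + 2 * Real.pi : ℝ) : ℂ)) * Complex.I) =
      Complex.exp (-((n + 1 : ℕ) * (θ : ℂ)) * Complex.I) := by
    rw [show -(((n + 1 : ℕ) : ℂ) * ((θ + 2 * Real.pi : ℝ) : ℂ)) * Complex.I =
      -(((n + 1 : ℕ) : ℂ) * (θ : ℂ)) * Complex.I - (n + 1 : ℕ) * (2 * Real.pi * Complex.I) by
        push_cast; ring,
      Complex.exp_periodic.sub_nat_mul_eq]
  rw [h1, h2]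

/-- window lemma for either sign of the trace -/
theorem win' {m μ : ℝ} {G1 G2 v s : ℝ → ℝ} (hm : 0 < m) (hμ : μ ≠ 0) (hG1 : Continuous G1)
    (hG2 : Continuous G2) (hP : PSol (fun θ => m * G1 θ) G2 (m * μ) v) (hs : Continuous s)
    (hs0 : ∀ θ, 0 < s θ) {x0 x1 η γ S : ℝ} (hx : x0 ≤ x1) (hη : 0 < η) (hmη : m * η ≤ 1)
    (hγ : 0 < γ) (hS : 1 ≤ S) (hsS : ∀ θ ∈ Icc x0 x1, s θ ≤ S * γ)
    (hind : η ≤ ∫ θ in x0..x1, ind G2 θ)
    (hcase : (∀ θ ∈ Icc x0 x1, 9 / 20 * γ ≤ G1 θ) ∨
      (∀ θ ∈ Icc x0 x1, G1 θ ≤ -(9 / 20 * γ)) ∨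
      (∀ θ ∈ Icc x0 x1, 9 / 20 * γ ≤ |G2 θ|)) :
    η * (m * η) ^ 2 / (800 * S ^ 2 * (1 + μ ^ 2)) ≤ ∫ θ in x0..x1, X (s θ) (v θ) ^ 2 := by
  rcases lt_or_gt_of_ne hμ with h | h
  · have hR := hP.reflect
    have hR' : PSol (fun θ => m * (fun θ => -G1 (-θ)) θ) (fun θ => G2 (-θ)) (m * (-μ))
        (fun θ => v (-θ)) := by
      have e1 : (fun θ => -(fun θ => m * G1 θ) (-θ)) = fun θ => m * (fun θ => -G1 (-θ)) θ := by
        funext θ; simp only; ring
      rw [e1, ← mul_neg] at hR
      exact hR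
    have hmem : ∀ θ ∈ Icc (-x1) (-x0), -θ ∈ Icc x0 x1 := by
      intro θ hθ
      constructor <;> linarith [hθ.1, hθ.2]
    have e3 : ∫ θ in (-x1)..(-x0), ind (fun θ => G2 (-θ)) θ = ∫ θ in x0..x1, ind G2 θ := by
      have h1 : (fun θ => ind (fun θ => G2 (-θ)) θ) = fun θ => ind G2 (-θ) := by
        funext θ
        rcases le_or_gt (G2 (-θ)) 0 with h2 | h2
        · rw [ind_of_nonpos (G := G2) h2, ind_of_nonpos (G := fun θ => G2 (-θ)) h2]
        · rw [ind_of_pos (G := G2) h2, ind_of_pos (G := fun θ => G2 (-θ)) h2]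
      rw [h1, intervalIntegral.integral_comp_neg (fun θ => ind G2 θ)]
      simp
    have := win (s := fun θ => s (-θ)) (x0 := -x1) (x1 := -x0) (η := η) (γ := γ) (S := S) hm
      (by linarith : 0 < -μ) (by fun_prop) (by fun_prop) hR'.toGSol (by fun_prop)
      (fun θ => hs0 _) (by linarith) hη hmη hγ hS (fun θ hθ => hsS _ (hmem θ hθ))
      (by rw [e3]; exact hind) ?_
    · rw [neg_sq] at this
      refine this.trans (le_of_eq ?_)
      rw [intervalIntegral.integral_comp_neg (fun θ => X (s θ) (v θ) ^ 2)]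
      simp
    · rcases hcase with h1 | h1 | h1
      · right; left
        intro θ hθ
        have := h1 _ (hmem θ hθ)
        linarith
      · left
        intro θ hθ
        have := h1 _ (hmem θ hθ)
        linarith
      · right; right
        intro θ hθ
        exact h1 _ (hmem θ hθ)
  · exact win hm h hG1 hG2 hP.toGSol hs hs0 hx hη hmη hγ hS hsS hind hcase

/-- the set of the centres of the windows on at least half of which `G ≤ 0` -/
def good (G : ℝ → ℝ) (η : ℝ) : Set ℝ := {x | η ≤ ∫ θ in (x - η)..(x + η), ind G θ}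

lemma good_meas {G : ℝ → ℝ} (hG : Continuous G) (η : ℝ) : MeasurableSet (good G η) := by
  have hc : Continuous fun t => ∫ θ in (0:ℝ)..t, ind G θ :=
    intervalIntegral.continuous_primitive (fun a b => ind_integrable hG a b) 0
  have h1 : (fun x => ∫ θ in (x - η)..(x + η), ind G θ) =
      fun x => (∫ θ in (0:ℝ)..(x + η), ind G θ) - ∫ θ in (0:ℝ)..(x - η), ind G θ := by
    funext x
    rw [intervalIntegral.integral_interval_sub_left (ind_integrable hG _ _)
      (ind_integrable hG _ _)]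
  have h2 : Continuous fun x => ∫ θ in (x - η)..(x + η), ind G θ := by
    rw [h1]
    exact (hc.comp (continuous_id.add continuous_const)).sub
      (hc.comp (continuous_id.sub continuous_const))
  exact measurableSet_le measurable_const h2.measurable

lemma good_or {G : ℝ → ℝ} (hG : Continuous G) {η : ℝ} (hη : 0 < η) (x : ℝ) :
    x ∈ good G η ∨ x ∈ good (fun θ => -G θ) η := by
  by_contra hcon
  push Not at hcon
  obtain ⟨h1, h2⟩ := hcon
  have hn : Continuous fun θ => -G θ := hG.neg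
  have h1' : ∫ θ in (x - η)..(x + η), ind G θ < η := not_le.1 h1
  have h2' : ∫ θ in (x - η)..(x + η), ind (fun θ => -G θ) θ < η := not_le.1 h2
  have h3 : ∫ θ in (x - η)..(x + η), (1:ℝ) ≤
      ∫ θ in (x - η)..(x + η), (ind G θ + ind (fun θ => -G θ) θ) := by
    apply intervalIntegral.integral_mono_on (by linarith) (by simp)
      ((ind_integrable hG _ _).add (ind_integrable hn _ _))
    intro θ _
    rcases le_total (G θ) 0 with h | h
    · rw [ind_of_nonpos h]
      have := ind_nonneg (fun θ => -G θ) θ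
      linarith
    · have h4 : ind (fun θ => -G θ) θ = 1 := ind_of_nonpos (by linarith)
      rw [h4]
      have := ind_nonneg G θ
      linarith
  rw [intervalIntegral.integral_add (ind_integrable hG _ _) (ind_integrable hn _ _)] at h3
  simp only [intervalIntegral.integral_const, smul_eq_mul, mul_one] at h3
  linarith

/-- the width of the windows -/
def wid (B : ℝ) (m : ℕ) : ℝ := 1 / (32 * Real.exp B * (2 * B * ((m + 1 : ℕ) : ℝ)))

lemma wid_pos {B : ℝ} (hB : 1 ≤ B) (m : ℕ) : 0 < wid B m := by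
  unfold wid
  positivity

/-- typical points -/
structure Typ (B : ℝ) (n : ℕ) (c : ℕ → ℂ) (E : Set ℝ) : Prop where
  meas : MeasurableSet E
  sub : E ⊆ Icc 0 Real.pi
  typ : ∀ θ ∈ E, ∀ z : ℂ, ‖GC n c z‖ ≤ Real.exp (B + B * n * ‖z - θ‖) * ‖GC n c θ‖

/-- the scale and the lower bound of the weighted length, when half of the windows are good -/
theorem low (hF : StF) (hH : StH) (B : ℝ) (hB1 : 1 ≤ B) :
    ∃ k c₀ : ℝ, 0 ≤ k ∧ 0 < c₀ ∧ ∀ (m : ℕ) (c : ℕ → ℂ), 1 ≤ m →
      (∃ w, Pc (m + 1) c w ≠ 0) → ∀ E : Set ℝ, Typ B (m + 1) c E →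
      1 / 2 ≤ (volume (E ∩ good (fun θ => (Gn (m + 1) c θ).im) (wid B m))).toReal →
      ∃ s s' : ℝ → ℝ, (∀ θ, HasDerivAt s (s' θ) θ) ∧ Continuous s' ∧ (∀ θ, 0 < s θ) ∧
        (∀ θ, s (θ + 2 * Real.pi) = s θ) ∧ (∀ θ, |(Gn (m + 1) c θ).re| ≤ k * s θ) ∧
        (∀ θ, |(Gn (m + 1) c θ).im| ≤ k * s θ) ∧
        (∀ θ, |(Gn' (m + 1) c θ).im| ≤ m * k * s θ) ∧ (∀ θ, |s' θ| ≤ m * k * s θ) ∧
        ∀ μ v, μ ≠ 0 →
          PSol (fun θ => m * (Gn (m + 1) c θ).re) (fun θ => (Gn (m + 1) c θ).im)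
          (m * μ) v → c₀ / (1 + μ ^ 2) ≤ ellv s v := by
  set S := 8 * Real.exp B with hS
  have hexpB : 1 ≤ Real.exp B := Real.one_le_exp (by linarith)
  have hS1 : 1 ≤ S := by rw [hS]; linarith
  set e₀ := 1 / (256 * B * Real.exp B) with he₀
  have he₀0 : 0 < e₀ := by positivity
  refine ⟨32 * B, e₀ ^ 2 / (3200 * S ^ 2), by positivity, by positivity, ?_⟩
  intro m c hm1 hne E hET hvol
  set η := wid B m with hηdef
  set n := m + 1 with hn
  have hmR : (1:ℝ) ≤ m := by exact_mod_cast hm1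
  have hnR : (n:ℝ) = m + 1 := by rw [hn]; push_cast; ring
  have hn1 : 1 ≤ n := by omega
  obtain ⟨hEm, hEsub, hEty⟩ := hET
  set b := 2 * B * n with hb
  have hnR1 : (1:ℝ) ≤ n := by rw [hnR]; linarith
  have hb0 : 0 < b := by positivity
  have hbn : (n:ℝ) + 1 ≤ b := by rw [hb]; nlinarith
  have hη : η = 1 / (32 * Real.exp B * b) := rfl
  obtain ⟨K, hK⟩ := j_GC_bound n c
  obtain ⟨s, s', hs'c, hsd, hs0, hsπ, hs'b, hsg, hsg', hst⟩ := hF (GC n c) (n + 1) b K
    (j_differentiable_GC n c) (by positivity) hbn hK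
    (norm_GC_add_pi n c) (j_exists_GC_ne hne)
  have hsc : Continuous s := continuous_iff_continuousAt.2 fun θ => (hsd θ).continuousAt
  have h8b : 8 * b ≤ m * (32 * B) := by
    rw [hb, hnR]
    nlinarith
  have h3k : (3:ℝ) ≤ 32 * B := by linarith
  have hsper : ∀ θ, s (θ + 2 * Real.pi) = s θ := by
    intro θ
    rw [show θ + 2 * Real.pi = (θ + Real.pi) + Real.pi by ring, hsπ, hsπ]
  refine ⟨s, s', hsd, hs'c, hs0, hsper, ?_, ?_, ?_, ?_, ?_⟩
  · intro θ
    refine (Complex.abs_re_le_norm _).trans ((hsg θ).trans ?_)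
    exact mul_le_mul_of_nonneg_right h3k (hs0 θ).le
  · intro θ
    refine (Complex.abs_im_le_norm _).trans ((hsg θ).trans ?_)
    exact mul_le_mul_of_nonneg_right h3k (hs0 θ).le
  · intro θ
    refine (Complex.abs_im_le_norm _).trans ?_
    rw [← j_deriv_GC]
    refine (hsg' θ).trans ?_
    exact mul_le_mul_of_nonneg_right h8b (hs0 θ).le
  · intro θ
    refine (hs'b θ).trans ?_
    exact mul_le_mul_of_nonneg_right h8b (hs0 θ).le
  have hη0 : 0 < η := wid_pos hB1 m
  have hη1 : η ≤ 1 / b := by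
    rw [hη]
    apply one_div_le_one_div_of_le hb0
    nlinarith
  have hmη : e₀ ≤ m * η := by
    rw [hη, he₀, hb, hnR, mul_one_div, div_le_div_iff₀ (by positivity) (by positivity)]
    have : (0:ℝ) ≤ B * Real.exp B := by positivity
    nlinarith
  have hmη1 : m * η ≤ 1 := by
    rw [hη, mul_one_div, div_le_one (by positivity), hb, hnR]
    have h1 : (1:ℝ) ≤ Real.exp B * B := by nlinarith
    have h2 : (m:ℝ) ≤ (Real.exp B * B) * (m + 1) := by nlinarith
    nlinarith
  have hGc : Continuous (Gn n c) := (contDiff_Gn n c).continuous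
  have hG2c : Continuous fun θ => (Gn n c θ).im := Complex.continuous_im.comp hGc
  intro μ v hμ hv
  set G1 : ℝ → ℝ := fun θ => (Gn n c θ).re with hG1
  set G2 : ℝ → ℝ := fun θ => (Gn n c θ).im with hG2
  have hG1' : Continuous G1 := Complex.continuous_re.comp hGc
  have hG2' : Continuous G2 := hG2c
  set f : ℝ → ℝ := fun θ => X (s θ) (v θ) ^ 2 + X (s θ) (v (θ + Real.pi)) ^ 2 with hf
  have hXc := continuous_Xs hsc hs0 hv.cont hv.pos
  have hXc2 : Continuous fun θ => X (s θ) (v (θ + Real.pi)) :=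
    continuous_Xs (v := fun θ => v (θ + Real.pi)) hsc hs0
      (hv.cont.comp (continuous_id.add continuous_const)) (fun θ => hv.pos _)
  have hfc : Continuous f := (hXc.pow 2).add (hXc2.pow 2)
  have hf0 : ∀ x, 0 ≤ f x := fun x => by simp only [hf]; positivity
  have hfper : ∀ x, f (x + Real.pi) = f x := by
    intro x
    simp only [hf, hsπ]
    rw [show x + Real.pi + Real.pi = x + 2 * Real.pi by ring, hv.per]
    ring
  set β := η * (m * η) ^ 2 / (800 * S ^ 2 * (1 + μ ^ 2)) with hβ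
  have hβ0 : 0 ≤ β := by positivity
  have hwin : ∀ θ0 ∈ E ∩ good G2 η, β ≤ ∫ x in (θ0 - η)..(θ0 + η), f x := by
    rintro θ0 ⟨hθ0, hgood⟩
    have hty := hEty θ0 hθ0
    set γ := ‖GC n c θ0‖ with hγ
    have hγ0 : 0 < γ := by
      rcases eq_or_lt_of_le (norm_nonneg (GC n c θ0)) with h | h
      · exfalso
        obtain ⟨z, hz⟩ := j_exists_GC_ne hne
        have := hty z
        rw [hγ, ← h, mul_zero] at this
        exact hz (norm_le_zero_iff.1 this)
      · exact h
    have hst' := hst θ0 (Real.exp B * γ) (fun z => by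
      refine (hty z).trans ?_
      rw [Real.exp_add]
      have h1 : Real.exp (B * n * ‖z - θ0‖) ≤ Real.exp (b * ‖z - θ0‖) := by
        apply Real.exp_le_exp.2
        apply mul_le_mul_of_nonneg_right _ (norm_nonneg _)
        rw [hb]
        nlinarith
      calc Real.exp B * Real.exp (B * n * ‖z - θ0‖) * γ
          = Real.exp B * γ * Real.exp (B * n * ‖z - θ0‖) := by ring
        _ ≤ _ := mul_le_mul_of_nonneg_left h1 (by positivity))
    have hwθ : ∀ θ ∈ Icc (θ0 - η) (θ0 + η), |θ - θ0| ≤ η := by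
      intro θ hθ
      rw [abs_le]
      constructor <;> linarith [hθ.1, hθ.2]
    have hvar : ∀ θ ∈ Icc (θ0 - η) (θ0 + η), ‖Gn n c θ - Gn n c θ0‖ ≤ γ / 4 := by
      intro θ hθ
      have h1 := Convex.norm_image_sub_le_of_norm_hasDerivWithin_le
        (s := Icc (θ0 - η) (θ0 + η)) (f := Gn n c) (f' := Gn' n c)
        (C := 8 * b * (Real.exp B * γ)) (x := θ0) (y := θ)
        (fun x _ => (hasDerivAt_Gn n c x).hasDerivWithinAt)
        (fun x hx => by
          rw [← j_deriv_GC]
          exact (hst' x ((hwθ x hx).trans hη1)).2)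
        (convex_Icc _ _) ⟨by linarith, by linarith⟩ hθ
      refine h1.trans ?_
      rw [Real.norm_eq_abs]
      calc 8 * b * (Real.exp B * γ) * |θ - θ0| ≤ 8 * b * (Real.exp B * γ) * η :=
            mul_le_mul_of_nonneg_left (hwθ θ hθ) (by positivity)
        _ = γ / 4 := by rw [hη]; field_simp; norm_num
    have hmain := win' (x0 := θ0 - η) (x1 := θ0 + η) (η := η) (γ := γ) (S := S)
      (m := (m:ℝ)) (μ := μ) (G1 := G1) (G2 := G2) (v := v) (s := s) (by linarith) hμ hG1' hG2' hv
      hsc hs0 (by linarith) hη0 hmη1 hγ0 hS1 ?_ hgood ?_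
    · refine hmain.trans ?_
      apply intervalIntegral.integral_mono_on (by linarith)
        ((hXc.pow 2).intervalIntegrable _ _) (hfc.intervalIntegrable _ _)
      intro θ _
      simp only [hf, Pi.pow_apply]
      have := sq_nonneg (X (s θ) (v (θ + Real.pi)))
      linarith
    · intro θ hθ
      have := (hst' θ ((hwθ θ hθ).trans hη1)).1
      rw [hS]
      linarith
    · have hγ' : γ = ‖Gn n c θ0‖ := rfl
      rcases j_re_im (w := Gn n c θ0) with h | h
      · rcases le_total 0 (Gn n c θ0).re with h0 | h0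
        · left
          intro θ hθ
          have h1 := (Complex.abs_re_le_norm (Gn n c θ - Gn n c θ0)).trans (hvar θ hθ)
          rw [Complex.sub_re] at h1
          rw [abs_of_nonneg h0, ← hγ'] at h
          have := (abs_le.1 h1).1
          simp only [hG1]
          linarith
        · right; left
          intro θ hθ
          have h1 := (Complex.abs_re_le_norm (Gn n c θ - Gn n c θ0)).trans (hvar θ hθ)
          rw [Complex.sub_re] at h1
          rw [abs_of_nonpos h0, ← hγ'] at h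
          have := (abs_le.1 h1).2
          simp only [hG1]
          linarith
      · right; right
        intro θ hθ
        have h1 := (Complex.abs_im_le_norm (Gn n c θ - Gn n c θ0)).trans (hvar θ hθ)
        rw [Complex.sub_im] at h1
        rw [← hγ'] at h
        have h2 := abs_sub_abs_le_abs_sub (Gn n c θ0).im (Gn n c θ).im
        rw [abs_sub_comm] at h2
        simp only [hG2]
        linarith
  have hav := hH f hfc hf0 hfper (E ∩ good G2 η) (hEm.inter (good_meas hG2' η))
    (inter_subset_left.trans hEsub) η β hη0 hβ0 hwin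
  have hell : ellv s v = ∫ x in (0:ℝ)..Real.pi, f x := by
    unfold ellv
    simp only [hf]
    rw [intervalIntegral.integral_add (by apply Continuous.intervalIntegrable; exact hXc.pow 2)
      (by apply Continuous.intervalIntegrable; exact hXc2.pow 2)]
    have e1 : ∫ x in (0:ℝ)..Real.pi, X (s x) (v (x + Real.pi)) ^ 2 =
        ∫ x in (0:ℝ)..Real.pi, (fun y => X (s y) (v y) ^ 2) (x + Real.pi) := by
      apply intervalIntegral.integral_congr
      intro x _
      simp only [hsπ]
    have e3 := intervalIntegral.integral_add_adjacent_intervals (a := 0) (b := Real.pi)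
      (c := Real.pi + Real.pi) (f := fun y => X (s y) (v y) ^ 2) (μ := volume)
      (Continuous.intervalIntegrable (hXc.pow 2) _ _)
      (Continuous.intervalIntegrable (hXc.pow 2) _ _)
    rw [e1, intervalIntegral.integral_comp_add_right (fun y => X (s y) (v y) ^ 2) Real.pi,
      zero_add, e3]
    congr 1
    ring
  rw [hell]
  have h1 : β / 2 ≤ 2 * η * ∫ x in (0:ℝ)..Real.pi, f x := by
    refine le_trans ?_ hav
    have := mul_le_mul_of_nonneg_left hvol hβ0
    linarith
  have h2 : β / (4 * η) ≤ ∫ x in (0:ℝ)..Real.pi, f x := by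
    rw [div_le_iff₀ (by positivity)]
    linarith
  refine le_trans ?_ h2
  have h3 : β / (4 * η) = (m * η) ^ 2 / (3200 * S ^ 2) / (1 + μ ^ 2) := by
    rw [hβ]
    field_simp
    ring
  rw [h3]
  apply div_le_div_of_nonneg_right _ (by positivity)
  apply div_le_div_of_nonneg_right _ (by positivity)
  exact pow_le_pow_left₀ he₀0.le hmη 2

end

end Pool.Agent.H756.OD
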