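import Pool.Agent.H811R2.T.I

/-! The count of the library for a part of the periodic graphs: those with a given property, which
has to imply a lower bound for the weighted length. The total over all positive traces is finite. -/

open Set MeasureTheory Topology Filter
open scoped ENNReal

namespace Pool.Agent.H756.OD

open Pool.Agent.H811R2.Quad

noncomputable section

/-- count over a window of the trace parameter, for the graphs with the property `q` -/
theorem count_sub {m : ℝ} (hm : 0 < m) {G1 G2 al be s : ℝ → ℝ} (hG1 : Continuous G1)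
    (hG2 : Continuous G2) (hal : Continuous al) (hbe : Continuous be) (hs : Continuous s)
    (hs0 : ∀ θ, 0 < s θ) {κ : ℝ} (hκ : ∀ θ, |al θ| + 2 * |be θ| ≤ κ)
    (hident : ∀ μ v, PSol (fun θ => m * G1 θ) G2 (m * μ) v →
      μ * ellv s v = ∫ θ in (0:ℝ)..(2 * Real.pi),
        (al θ * X (s θ) (v θ) + be θ * X (s θ) (v θ) ^ 2))
    {q : (ℝ → ℝ) → Prop}
    {a b xm l0 : ℝ} (ha : 0 ≤ a) (hab : a < b) (hxm : 0 ≤ xm) (hl0 : 0 < l0)
    (hx : ∀ μ v, a < μ → μ ≤ b → PSol (fun θ => m * G1 θ) G2 (m * μ) v →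
      ∀ θ, X (s θ) (v θ) ≤ xm)
    (hlow : ∀ v, (∀ θ, 0 < v θ) → Continuous v → q v → l0 ≤ ellv s v) :
    ∃ g : ℝ → ℝ≥0∞, Measurable g ∧
      (∀ μ : ℝ, a < μ → μ ≤ b →
        ((({v : ℝ → ℝ | PSol (fun θ => m * G1 θ) G2 (m * μ) v ∧ q v} :
          Set (ℝ → ℝ)).encard : ℕ∞) : ℝ≥0∞) ≤ g μ) ∧
      ∫⁻ t, g t ≤ ENNReal.ofReal (2 * Real.pi * (κ * xm + b * xm ^ 2) / l0) := by
  have hb : 0 < b := lt_of_le_of_lt ha hab
  have hκ0 : 0 ≤ κ := le_trans (by positivity) (hκ 0)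
  have hG1m : Continuous fun θ => m * G1 θ := continuous_const.mul hG1
  set Tm := 2 * Real.pi * (κ * xm + b * xm ^ 2) with hTm
  have hTm0 : 0 ≤ Tm := by positivity
  let ι := {p : ℝ × (ℝ → ℝ) // a < p.1 ∧ p.1 ≤ b ∧
    PSol (fun θ => m * G1 θ) G2 (m * p.1) p.2 ∧ q p.2}
  let τ : ι → ℝ := fun p => clocks κ b s p.1.2
  let f : ι → ℝ := fun p => p.1.1
  -- the basic inequality for ordered pairs
  have hpair : ∀ i j : ι, (∀ θ, i.1.2 θ < j.1.2 θ) → l0 * |f i - f j| ≤ τ j - τ i := by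
    rintro ⟨⟨t1, v1⟩, h1a, h1b, h1, q1⟩ ⟨⟨t2, v2⟩, h2a, h2b, h2, q2⟩ hlt
    simp only at h1a h1b h1 q1 h2a h2b h2 q2 hlt
    have hfl := flux_s hal hbe hκ hb hs hs0 h1.cont h2.cont h1.pos h2.pos (hident _ _ h1)
      (hident _ _ h2) hlt
    refine le_trans ?_ hfl
    show l0 * |t1 - t2| ≤ _
    have l1 := hlow _ h1.pos h1.cont q1
    have k1 : (t1 - t2) * ellv s v1 =
        (t1 * ellv s v1 - t2 * ellv s v2) - t2 * (ellv s v1 - ellv s v2) := by ring
    have k2 : |t1 - t2| * ellv s v1 ≤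
        |t1 * ellv s v1 - t2 * ellv s v2| + b * |ellv s v1 - ellv s v2| := by
      have hl1 : 0 ≤ ellv s v1 := hl0.le.trans l1
      calc |t1 - t2| * ellv s v1 = |(t1 - t2) * ellv s v1| := by
            rw [abs_mul, abs_of_nonneg hl1]
        _ ≤ |t1 * ellv s v1 - t2 * ellv s v2| + |t2 * (ellv s v1 - ellv s v2)| := by
            rw [k1]; exact abs_sub _ _
        _ ≤ _ := by
            rw [abs_mul, abs_of_pos (lt_of_le_of_lt ha h2a)]
            have := mul_le_mul_of_nonneg_right h2b (abs_nonneg (ellv s v1 - ellv s v2))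
            linarith
    have k3 : l0 * |t1 - t2| ≤ |t1 - t2| * ellv s v1 := by
      rw [mul_comm]; exact mul_le_mul_of_nonneg_left l1 (abs_nonneg _)
    linarith
  have hlt : ∀ i j : ι, (∀ θ, i.1.2 θ < j.1.2 θ) → τ i < τ j := by
    intro i j hij
    exact clocks_lt hκ0 hb hs hs0 i.2.2.2.1.cont j.2.2.2.1.cont i.2.2.2.1.pos hij
  have htri : ∀ i j : ι, i.1.2 = j.1.2 ∨ (∀ θ, i.1.2 θ < j.1.2 θ) ∨ (∀ θ, j.1.2 θ < i.1.2 θ) := by
    intro i j
    by_cases hij : i.1.2 = j.1.2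
    · exact Or.inl hij
    · exact Or.inr (PSol.order hG1m hG2 i.2.2.2.1 j.2.2.2.1 hij)
  have hfeq : ∀ i j : ι, i.1.2 = j.1.2 → i = j := by
    intro i j hij
    have h1 := i.2.2.2.1
    have h2 := j.2.2.2.1
    rw [← hij] at h2
    have h3 := mul_left_cancel₀ hm.ne' (h1.toGSol.mu_unique h2.toGSol)
    exact Subtype.ext (Prod.ext h3 hij)
  have hinj : Function.Injective τ := by
    intro i j hij
    rcases htri i j with h | h | h
    · exact hfeq i j h
    · exact absurd hij (hlt i j h).ne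
    · exact absurd hij (hlt j i h).ne'
  have hLip : ∀ i j, |f i - f j| ≤ 1 / l0 * |τ i - τ j| := by
    intro i j
    rcases htri i j with h | h | h
    · rw [hfeq i j h]; simp
    · have h1 := hpair i j h
      have h2 := hlt i j h
      rw [abs_sub_comm (τ i), abs_of_pos (by linarith : 0 < τ j - τ i), div_mul_eq_mul_div,
        one_mul, le_div_iff₀ hl0]
      linarith
    · have h1 := hpair j i h
      have h2 := hlt j i h
      rw [abs_sub_comm] at h1
      rw [abs_of_pos (by linarith : 0 < τ i - τ j), div_mul_eq_mul_div,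
        one_mul, le_div_iff₀ hl0]
      linarith
  obtain ⟨g, hg1, hg2, hg3⟩ := indic_lip τ f hinj hTm0 (by positivity : (0:ℝ) ≤ 1 / l0)
    (fun i => clocks_nonneg hκ0 hb hs0 i.2.2.2.1.pos)
    (fun i => clocks_le hκ0 hb hs hs0 i.2.2.2.1.cont i.2.2.2.1.pos
      (hx _ _ i.2.1 i.2.2.1 i.2.2.2.1)) hLip
  refine ⟨g, hg1, fun μ hμa hμb => ?_, ?_⟩
  · refine le_trans ?_ (hg2 μ)
    have hinjOn : InjOn (fun i : ι => i.1.2) {i | f i = μ} := by
      intro i _ j _ hij
      exact hfeq i j hij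
    have himg : ({v : ℝ → ℝ | PSol (fun θ => m * G1 θ) G2 (m * μ) v ∧ q v} : Set (ℝ → ℝ)) ⊆
        (fun i : ι => i.1.2) '' {i | f i = μ} := by
      intro v hv
      exact ⟨⟨(μ, v), hμa, hμb, hv⟩, rfl, rfl⟩
    have := (Set.encard_le_encard himg).trans_eq hinjOn.encard_image
    exact_mod_cast this
  · refine hg3.trans (le_of_eq ?_)
    congr 1
    ring

/-- the total over all positive traces, for the graphs with the property `q` -/
theorem total_sub (k : ℝ) (hk : 0 ≤ k) :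
    ∃ C : ℝ, 0 ≤ C ∧ ∀ (m : ℝ) (G1 G2 G2' s s' : ℝ → ℝ), 0 < m →
      Continuous G1 → (∀ θ, HasDerivAt G2 (G2' θ) θ) → Continuous G2' →
      (∀ θ, G2 (θ + 2 * Real.pi) = G2 θ) → (∀ θ, HasDerivAt s (s' θ) θ) → Continuous s' →
      (∀ θ, 0 < s θ) → (∀ θ, s (θ + 2 * Real.pi) = s θ) → (∀ θ, |G1 θ| ≤ k * s θ) →
      (∀ θ, |G2 θ| ≤ k * s θ) → (∀ θ, |G2' θ| ≤ m * k * s θ) → (∀ θ, |s' θ| ≤ m * k * s θ) →
      ∀ c : ℝ, 0 < c → ∀ q : (ℝ → ℝ) → Prop,
      (∀ v, (∀ θ, 0 < v θ) → Continuous v → q v → c ≤ ellv s v) →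
      ∃ g : ℝ → ℝ≥0∞, Measurable g ∧
        (∀ μ : ℝ, 0 < μ →
          ((({v : ℝ → ℝ | PSol (fun θ => m * G1 θ) G2 (m * μ) v ∧ q v} :
            Set (ℝ → ℝ)).encard : ℕ∞) : ℝ≥0∞) ≤ g μ) ∧
        ∫⁻ t, g t ≤ ENNReal.ofReal (C / c) := by
  set Q := 2 * k ^ 2 + 4 * k with hQ
  set κ := 6 * k + 4 * k ^ 2 with hκdef
  have hQ0 : 0 ≤ Q := by positivity
  have hκ0 : 0 ≤ κ := by positivity
  refine ⟨2 * Real.pi * (κ + 1) + 4 * Real.pi * (κ * Q + 2 * Q ^ 2), by positivity, ?_⟩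
  intro m G1 G2 G2' s s' hm hG1 hG2 hG2' hper2 hs hs' hs0 hsper h1 h2 h3 h4 c hc q hlow
  have hsc : Continuous s := continuous_iff_continuousAt.2 fun θ => (hs θ).continuousAt
  have hG2c : Continuous G2 := continuous_iff_continuousAt.2 fun θ => (hG2 θ).continuousAt
  set al : ℝ → ℝ := fun θ => G2' θ / (m * s θ) - G1 θ / s θ - 2 * G2 θ * s' θ / (m * s θ ^ 2)
    with hal
  set be : ℝ → ℝ := fun θ => G1 θ / s θ - s' θ / (m * s θ) + G2 θ * s' θ / (m * s θ ^ 2) with hbe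
  have hcal : Continuous al := by
    refine ((hG2'.div (by fun_prop) fun θ => ?_).sub (hG1.div hsc fun θ => (hs0 θ).ne')).sub
      (Continuous.div (by fun_prop) (by fun_prop) fun θ => ?_)
    · have := hs0 θ
      positivity
    · have := hs0 θ
      positivity
  have hcbe : Continuous be := by
    refine ((hG1.div hsc fun θ => (hs0 θ).ne').sub (hs'.div (by fun_prop) fun θ => ?_)).add
      (Continuous.div (by fun_prop) (by fun_prop) fun θ => ?_)
    · have := hs0 θ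
      positivity
    · have := hs0 θ
      positivity
  have hκb : ∀ θ, |al θ| + 2 * |be θ| ≤ κ := by
    intro θ
    have p := hs0 θ
    have b1 : |G1 θ / s θ| ≤ k := by
      rw [abs_div, abs_of_pos p, div_le_iff₀ p]; exact h1 θ
    have b2 : |G2' θ / (m * s θ)| ≤ k := by
      rw [abs_div, abs_of_pos (by positivity : 0 < m * s θ), div_le_iff₀ (by positivity)]
      calc _ ≤ m * k * s θ := h3 θ
        _ = _ := by ring
    have b3 : |s' θ / (m * s θ)| ≤ k := by
      rw [abs_div, abs_of_pos (by positivity : 0 < m * s θ), div_le_iff₀ (by positivity)]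
      calc _ ≤ m * k * s θ := h4 θ
        _ = _ := by ring
    have b4 : |G2 θ / s θ| ≤ k := by
      rw [abs_div, abs_of_pos p, div_le_iff₀ p]; exact h2 θ
    have b5 : |G2 θ * s' θ / (m * s θ ^ 2)| ≤ k ^ 2 := by
      have : G2 θ * s' θ / (m * s θ ^ 2) = (G2 θ / s θ) * (s' θ / (m * s θ)) := by
        field_simp
      rw [this, abs_mul, sq]
      exact mul_le_mul b4 b3 (abs_nonneg _) hk
    have b6 : |2 * G2 θ * s' θ / (m * s θ ^ 2)| ≤ 2 * k ^ 2 := by
      have : 2 * G2 θ * s' θ / (m * s θ ^ 2) = 2 * (G2 θ * s' θ / (m * s θ ^ 2)) := by ring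
      rw [this, abs_mul, abs_two]
      linarith
    have c1 : |al θ| ≤ k + k + 2 * k ^ 2 := by
      simp only [hal]
      refine (abs_sub _ _).trans (add_le_add ((abs_sub _ _).trans (add_le_add b2 b1)) b6)
    have c2 : |be θ| ≤ k + k + k ^ 2 := by
      simp only [hbe]
      refine (abs_add_le _ _).trans (add_le_add ((abs_sub _ _).trans (add_le_add b1 b3)) b5)
    rw [hκdef]
    linarith
  have hident : ∀ μ v, PSol (fun θ => m * G1 θ) G2 (m * μ) v →
      μ * ellv s v = ∫ θ in (0:ℝ)..(2 * Real.pi),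
        (al θ * X (s θ) (v θ) + be θ * X (s θ) (v θ) ^ 2) := by
    intro μ v h
    have hG1m : Continuous fun θ => m * G1 θ := continuous_const.mul hG1
    have e1 := h.identity_s hG1m hG2 hG2' hper2 hs hs' hs0 hsper
    have e2 : ∫ θ in (0:ℝ)..(2 * Real.pi),
        ((G2' θ / s θ - m * G1 θ / s θ - 2 * G2 θ * s' θ / s θ ^ 2) * X (s θ) (v θ) +
        (m * G1 θ / s θ - s' θ / s θ + G2 θ * s' θ / s θ ^ 2) * X (s θ) (v θ) ^ 2) =
        m * ∫ θ in (0:ℝ)..(2 * Real.pi),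
        (al θ * X (s θ) (v θ) + be θ * X (s θ) (v θ) ^ 2) := by
      rw [← intervalIntegral.integral_const_mul]
      apply intervalIntegral.integral_congr
      intro θ _
      have := hs0 θ
      simp only [hal, hbe]
      field_simp
    rw [e2, mul_assoc] at e1
    exact mul_left_cancel₀ hm.ne' e1
  -- first window
  obtain ⟨g0, hg01, hg02, hg03⟩ := count_sub hm hG1 hG2c hcal hcbe hsc hs0 hκb hident (q := q)
    (a := 0) (b := 1) (xm := 1) (l0 := c) le_rfl one_pos zero_le_one hc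
    (fun μ v _ _ h θ => (X_lt_one (hs0 θ) (h.pos θ)).le) hlow
  -- dyadic windows
  have hwin : ∀ j : ℕ, ∃ g : ℝ → ℝ≥0∞, Measurable g ∧
      (∀ μ : ℝ, 2 ^ j < μ → μ ≤ 2 ^ (j + 1) →
        ((({v : ℝ → ℝ | PSol (fun θ => m * G1 θ) G2 (m * μ) v ∧ q v} :
          Set (ℝ → ℝ)).encard : ℕ∞) : ℝ≥0∞) ≤ g μ) ∧
      ∫⁻ t, g t ≤ ENNReal.ofReal ((2 * Real.pi * (κ * Q + 2 * Q ^ 2) / c) * (1 / 2) ^ j) := by
    intro j
    have h2k : (0:ℝ) < 2 ^ j := by positivity
    obtain ⟨g, hg1, hg2, hg3⟩ := count_sub hm hG1 hG2c hcal hcbe hsc hs0 hκb hident (q := q)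
      (a := 2 ^ j) (b := 2 ^ (j + 1)) (xm := Q / 2 ^ j) (l0 := c) h2k.le
      (by rw [pow_succ]; linarith) (by positivity) hc
      (fun μ v g1 _ h θ => by
        have g3 := h.X_le_of_mu hm (h2k.trans g1) hs hs0 hsper hk h1 h2 h4 θ
        exact g3.trans (div_le_div_of_nonneg_left hQ0 h2k g1.le)) hlow
    refine ⟨g, hg1, hg2, hg3.trans (le_of_eq ?_)⟩
    congr 1
    rw [pow_succ, one_div, inv_pow]
    field_simp
  choose g hg1 hg2 hg3 using hwin
  refine ⟨fun μ => g0 μ + ∑' j : ℕ, g j μ, ?_, ?_, ?_⟩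
  · exact hg01.add (Measurable.ennreal_tsum hg1)
  · intro μ hμ0
    rcases le_or_gt μ 1 with h1 | h1
    · exact (hg02 μ hμ0 h1).trans le_self_add
    · -- the window of `μ`
      obtain ⟨j, hj1, hj2⟩ : ∃ j : ℕ, (2:ℝ) ^ j < μ ∧ μ ≤ 2 ^ (j + 1) := by
        obtain ⟨j, hj1, hj2⟩ := exists_nat_pow_near h1.le (by norm_num : (1:ℝ) < 2)
        rcases eq_or_lt_of_le hj1 with h | h
        · rcases j with _ | j
          · rw [pow_zero] at h; linarith
          · refine ⟨j, ?_, h.ge⟩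
            rw [← h, pow_succ]
            have : (0:ℝ) < 2 ^ j := by positivity
            linarith
        · exact ⟨j, h, hj2.le⟩
      calc _ ≤ g j μ := hg2 j μ hj1 hj2
        _ ≤ ∑' k : ℕ, g k μ := ENNReal.le_tsum j
        _ ≤ _ := le_add_self
  · rw [lintegral_add_left hg01, lintegral_tsum (fun k => (hg1 k).aemeasurable)]
    set R := 2 * Real.pi * (κ * Q + 2 * Q ^ 2) / c with hR
    have hR0 : 0 ≤ R := by positivity
    have h5 : ∑' j : ℕ, ∫⁻ t, g j t ≤ ENNReal.ofReal (2 * R) := by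
      refine (ENNReal.tsum_le_tsum hg3).trans (le_of_eq ?_)
      rw [← ENNReal.ofReal_tsum_of_nonneg (fun j => by positivity)
        ((summable_geometric_of_lt_one (by norm_num) (by norm_num)).mul_left R), tsum_mul_left,
        tsum_geometric_of_lt_one (by norm_num) (by norm_num)]
      congr 1
      ring
    have h6 : ∫⁻ t, g0 t ≤ ENNReal.ofReal (2 * Real.pi * (κ + 1) / c) := by
      refine hg03.trans (le_of_eq ?_)
      congr 1
      ring
    refine (add_le_add h6 h5).trans (le_of_eq ?_)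
    rw [← ENNReal.ofReal_add (by positivity) (by positivity), hR]
    congr 1
    ring

end

end Pool.Agent.H756.OD
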